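import Mathlib

open Finset Polynomial

namespace MP5d0678

section
variable {F : Type*} [Field F] [Fintype F] [DecidableEq F]

omit [Fintype F] [DecidableEq F] in
lemma cf4_4 (b c d e f : F) :
    (C b * X ^ 4 + C c * X ^ 3 + C d * X ^ 2 + C e * X + C f : F[X]).coeff 4 = b := by
  simp [coeff_X, coeff_C]
omit [Fintype F] [DecidableEq F] in
lemma cf5_4 (a b c d e f : F) :
    (C a * X ^ 5 + C b * X ^ 4 + C c * X ^ 3 + C d * X ^ 2 + C e * X + C f : F[X]).coeff 4 = b := by
  simp [coeff_X, coeff_C]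
omit [Fintype F] [DecidableEq F] in
lemma cf5_3 (a b c d e f : F) :
    (C a * X ^ 5 + C b * X ^ 4 + C c * X ^ 3 + C d * X ^ 2 + C e * X + C f : F[X]).coeff 3 = c := by
  simp [coeff_X, coeff_C]
omit [Fintype F] [DecidableEq F] in
lemma cf5_2 (a b c d e f : F) :
    (C a * X ^ 5 + C b * X ^ 4 + C c * X ^ 3 + C d * X ^ 2 + C e * X + C f : F[X]).coeff 2 = d := by
  simp [coeff_X, coeff_C]

lemma quartic_big (hF : ringChar F ≠ 2) (hq : 5 ≤ Fintype.card F)
    (d0 d1 d2 d3 d4 : F) (h4 : d4 ^ (Fintype.card F / 2) = 1)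
    (h : ∀ l : F, (d4 * l ^ 4 + d3 * l ^ 3 + d2 * l ^ 2 + d1 * l + d0) ^ (Fintype.card F / 2) = 1) :
    ∃ r0 : F, 4 * d4 * r0 = 4 * d4 * d2 - d3 ^ 2 ∧ 2 * d4 * d1 = d3 * r0 ∧
      8 * d0 * d4 = 2 * d2 * r0 - d1 * d3 := by
  classical
  set q := Fintype.card F with hqdef
  set n := q / 2 with hn
  have hodd : q % 2 = 1 := FiniteField.odd_card_of_char_ne_two hF
  have hq2 : q = 2 * n + 1 := by omega
  have h2 : (2 : F) ≠ 0 := Ring.two_ne_zero hF
  have hd4 : d4 ≠ 0 := by
    rintro rfl
    rw [zero_pow (by omega)] at h4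
    exact zero_ne_one h4
  have hqF : (q : F) = 0 := FiniteField.cast_card_eq_zero F
  have hqP : ((q : ℕ) : F[X]) = 0 := by
    rw [← Polynomial.C_eq_natCast, hqF, C_0]
  obtain ⟨D, hD⟩ : ∃ D : F[X], D = C d4 * X ^ 4 + C d3 * X ^ 3 + C d2 * X ^ 2 + C d1 * X + C d0 :=
    ⟨_, rfl⟩
  obtain ⟨P, hP⟩ : ∃ P : F[X], P = X ^ q - X := ⟨_, rfl⟩
  have hPm : P.Monic := by
    have : q = (q - 1) + 1 := by omega
    rw [hP, this]
    apply monic_X_pow_sub
    rw [degree_X]
    have : 1 < q - 1 + 1 := by omega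
    exact_mod_cast this
  have hPdeg : P.natDegree = q := by
    rw [hP]; exact FiniteField.X_pow_card_sub_X_natDegree_eq F (by omega)
  have hDdeg : D.natDegree = 4 := by
    rw [hD]; compute_degree!
  have hDlead : D.leadingCoeff = d4 := by
    rw [leadingCoeff, hDdeg, hD]
    simp [coeff_X, coeff_C]
  have hD0 : D ≠ 0 := by
    intro h0; rw [h0] at hDdeg; simp at hDdeg
  -- divisibility
  have hdvd : P ∣ D ^ n - 1 := by
    rw [← modByMonic_eq_zero_iff_dvd hPm]
    apply Polynomial.eq_zero_of_natDegree_lt_card_of_eval_eq_zero' _ (Finset.univ : Finset F)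
    · intro l _
      have e1 : (D ^ n - 1) %ₘ P = (D ^ n - 1) - P * ((D ^ n - 1) /ₘ P) := by
        rw [eq_sub_iff_add_eq]; exact modByMonic_add_div _ _
      rw [e1]
      have e2 : eval l P = 0 := by
        rw [hP]; simp [hqdef, FiniteField.pow_card]
      have e3 : eval l (D ^ n - 1) = 0 := by
        rw [hD]; simp only [eval_sub, eval_pow, eval_add, eval_mul, eval_C, eval_X, eval_one]
        rw [h l, sub_self]
      rw [eval_sub, eval_mul, e2, e3]; simp
    · have : (D ^ n - 1) %ₘ P = 0 ∨ ((D ^ n - 1) %ₘ P).natDegree < P.natDegree := by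
        by_cases h0 : (D ^ n - 1) %ₘ P = 0
        · exact Or.inl h0
        · right
          exact natDegree_lt_natDegree h0 (degree_modByMonic_lt _ hPm)
      rw [Finset.card_univ, ← hqdef]
      rcases this with h0 | h0
      · rw [h0]; simp; omega
      · rw [hPdeg] at h0; exact h0
  obtain ⟨g, hg⟩ := hdvd
  have hE0 : D ^ n = 1 + P * g := by rw [← hg]; ring
  -- derivative identities
  have hP' : derivative P = -1 := by
    rw [hP]
    simp only [derivative_sub, derivative_X_pow, derivative_X]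
    rw [show (C (q : F) : F[X]) = 0 by rw [hqF, C_0]]
    ring
  have hn2 : (2 : F[X]) * (n : F[X]) = -1 := by
    have : ((q : ℕ) : F[X]) = 2 * (n : F[X]) + 1 := by
      rw [hq2]; push_cast; ring
    rw [hqP] at this
    linear_combination -this
  have hder : (n : F[X]) * D ^ (n - 1) * derivative D = - g + P * derivative g := by
    have e := congrArg derivative hE0
    rw [derivative_pow, derivative_add, derivative_one, derivative_mul, hP'] at e
    rw [← Polynomial.C_eq_natCast]
    rw [e]; ring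
  have hnpos : 1 ≤ n := by omega
  have hDn : D ^ (n - 1) * D = D ^ n := by
    rw [← pow_succ]; congr 1; omega
  obtain ⟨r, hr⟩ : ∃ r : F[X], r = 2 * D * derivative g + derivative D * g := ⟨_, rfl⟩
  have h1 : P * r = 2 * D * g - derivative D := by
    have e : (2 * (n : F[X])) * (D ^ (n - 1) * D) * derivative D
        = 2 * D * (- g + P * derivative g) := by
      rw [← hder]; ring
    rw [hn2, hDn, hE0] at e
    rw [hr]
    linear_combination -e
  have h2' : P * (derivative D * r - 2 * D * derivative r)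
      = 2 * D * derivative (derivative D) - 4 * D * r - (derivative D) ^ 2 := by
    have e := congrArg derivative h1
    rw [derivative_mul, hP', derivative_sub, derivative_mul, derivative_mul] at e
    simp only [derivative_ofNat, zero_mul, zero_add] at e
    have e3 : derivative D * g = derivative (derivative D) - 2 * r + P * derivative r := by
      have : r = 2 * D * derivative g + derivative D * g := hr
      linear_combination -e + this
    have e4 : derivative D * (2 * D * g) = 2 * D * (derivative (derivative D) - 2 * r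
        + P * derivative r) := by
      rw [← e3]; ring
    have e5 : 2 * D * g = P * r + derivative D := by rw [h1]; ring
    rw [e5] at e4
    linear_combination e4
  -- degrees
  have hgdeg : g.natDegree = q - 2 ∧ g.leadingCoeff = 1 := by
    have e1 : (D ^ n).natDegree = 4 * n := by rw [natDegree_pow, hDdeg]; ring
    have e2 : (D ^ n - 1).natDegree = 4 * n := by
      rw [← e1]
      apply natDegree_sub_eq_left_of_natDegree_lt
      rw [e1]; simp; omega
    have e3 : (D ^ n - 1).leadingCoeff = 1 := by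
      rw [leadingCoeff, e2, coeff_sub]
      have : (D ^ n).coeff (4 * n) = 1 := by
        rw [← e1]
        show (D ^ n).leadingCoeff = 1
        rw [leadingCoeff_pow, hDlead, h4]
      rw [this, coeff_one]
      rw [if_neg (by omega)]; simp
    have hg0 : g ≠ 0 := by
      rintro rfl
      rw [hg] at e2; simp at e2; omega
    rw [hg] at e2 e3
    rw [hPm.natDegree_mul' hg0, hPdeg] at e2
    rw [leadingCoeff_mul, hPm.leadingCoeff, one_mul] at e3
    refine ⟨by omega, e3⟩
  have hg0 : g ≠ 0 := by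
    rintro rfl
    have := hgdeg.2; simp at this
  have h2P : (2 : F[X]) = C 2 := (map_ofNat C 2).symm
  have hrdeg : r.natDegree = 2 ∧ r.leadingCoeff = 2 * d4 := by
    have e1 : (2 * D * g).natDegree = q + 2 := by
      rw [h2P, mul_assoc, natDegree_C_mul h2, natDegree_mul hD0 hg0, hDdeg, hgdeg.1]; omega
    have e1l : (2 * D * g).leadingCoeff = 2 * d4 := by
      rw [h2P, leadingCoeff_mul, leadingCoeff_mul, hgdeg.2, hDlead, leadingCoeff_C]; ring
    have e2 : (derivative D).natDegree < (2 * D * g).natDegree := by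
      rw [e1]
      have := natDegree_derivative_le D
      rw [hDdeg] at this; omega
    have e3 : (P * r).natDegree = q + 2 := by
      rw [h1, natDegree_sub_eq_left_of_natDegree_lt e2, e1]
    have e4 : (P * r).leadingCoeff = 2 * d4 := by
      rw [h1, leadingCoeff, natDegree_sub_eq_left_of_natDegree_lt e2, coeff_sub,
        coeff_eq_zero_of_natDegree_lt e2, sub_zero]
      exact e1l
    have hr0 : r ≠ 0 := by
      intro h0; rw [h0] at e3; simp at e3
    rw [hPm.natDegree_mul' hr0, hPdeg] at e3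
    rw [leadingCoeff_mul, hPm.leadingCoeff, one_mul] at e4
    exact ⟨by omega, e4⟩
  obtain ⟨r0, r1, hrform⟩ : ∃ r0 r1 : F, r = C (2 * d4) * X ^ 2 + C r1 * X + C r0 := by
    refine ⟨r.coeff 0, r.coeff 1, ?_⟩
    have e : r.coeff 2 = 2 * d4 := by
      have := hrdeg.2; rw [leadingCoeff, hrdeg.1] at this; exact this
    rw [← e]
    have := r.as_sum_range_C_mul_X_pow
    rw [hrdeg.1] at this
    rw [Finset.sum_range_succ, Finset.sum_range_succ, Finset.sum_range_succ] at this
    simp only [Finset.sum_range_zero, zero_add, pow_zero, mul_one, pow_one] at this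
    conv_lhs => rw [this]
    ring
  -- explicit forms
  have hD' : derivative D = C (4 * d4) * X ^ 3 + C (3 * d3) * X ^ 2 + C (2 * d2) * X + C d1 := by
    rw [hD]
    simp only [derivative_add, derivative_mul, derivative_C, derivative_X_pow, derivative_X,
      zero_mul, zero_add, mul_one, C_mul, Nat.cast_ofNat, add_zero, map_ofNat]
    norm_num
    ring
  have hD'' : derivative (derivative D) = C (12 * d4) * X ^ 2 + C (6 * d3) * X + C (2 * d2) := by
    rw [hD']
    simp only [derivative_add, derivative_mul, derivative_C, derivative_X_pow, derivative_X,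
      zero_mul, zero_add, mul_one, C_mul, Nat.cast_ofNat, add_zero, map_ofNat]
    norm_num
    ring
  have hr' : derivative r = C (4 * d4) * X + C r1 := by
    rw [hrform]
    simp only [derivative_add, derivative_mul, derivative_C, derivative_X_pow, derivative_X,
      zero_mul, zero_add, mul_one, C_mul, Nat.cast_ofNat, add_zero, map_ofNat]
    norm_num
    ring
  obtain ⟨u, hu⟩ : ∃ u : F[X], u = derivative D * r - 2 * D * derivative r := ⟨_, rfl⟩
  obtain ⟨R, hR⟩ : ∃ R : F[X],
    R = 2 * D * derivative (derivative D) - 4 * D * r - (derivative D) ^ 2 := ⟨_, rfl⟩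
  rw [← hu, ← hR] at h2'
  have huform : u = C (2 * d4 * r1 - 2 * d3 * d4) * X ^ 4
      + C (4 * d4 * r0 + d3 * r1 - 4 * d2 * d4) * X ^ 3
      + C (3 * d3 * r0 - 6 * d1 * d4) * X ^ 2
      + C (2 * d2 * r0 - d1 * r1 - 8 * d0 * d4) * X + C (d1 * r0 - 2 * d0 * r1) := by
    rw [hu, hD', hr', hrform, hD]
    simp only [C_mul, C_sub, C_add, map_ofNat]
    ring
  have hRform : R = C (4 * d3 * d4 - 4 * d4 * r1) * X ^ 5
      + C (4 * d4 * d2 + 3 * d3 ^ 2 - 4 * d4 * r0 - 4 * d3 * r1) * X ^ 4
      + C (4 * d2 * d3 + 8 * d1 * d4 - 4 * d3 * r0 - 4 * d2 * r1) * X ^ 3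
      + C (6 * d1 * d3 + 16 * d0 * d4 - 4 * d2 * r0 - 4 * d1 * r1) * X ^ 2
      + C (12 * d0 * d3 - 4 * d1 * r0 - 4 * d0 * r1) * X
      + C (4 * d0 * d2 - 4 * d0 * r0 - d1 ^ 2) := by
    rw [hR, hD'', hD', hrform, hD]
    simp only [C_mul, C_sub, C_add, C_pow, map_ofNat]
    ring
  have hu0 : u = 0 := by
    by_contra hune
    have e1 : (P * u).natDegree = q + u.natDegree := by
      rw [hPm.natDegree_mul' hune, hPdeg]
    rw [h2'] at e1
    have e2 : R.natDegree ≤ 5 := by
      rw [hRform]; compute_degree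
    have e3 : u.natDegree = 0 := by omega
    have e4' : u.coeff 4 = 0 := coeff_eq_zero_of_natDegree_lt (by omega)
    have e4 : 2 * d4 * r1 - 2 * d3 * d4 = 0 := by
      rw [← e4', huform, cf4_4]
    have e5 : r1 = d3 := by
      have : 2 * d4 * (r1 - d3) = 0 := by linear_combination e4
      rcases mul_eq_zero.1 this with h | h
      · exact absurd h (mul_ne_zero h2 hd4)
      · exact sub_eq_zero.1 h
    have e6 : R.natDegree ≤ 4 := by
      rw [hRform, e5]
      have : 4 * d3 * d4 - 4 * d4 * d3 = 0 := by ring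
      rw [this, C_0, zero_mul, zero_add]
      compute_degree
    omega
  have hR0 : R = 0 := by rw [← h2', hu0, mul_zero]
  have c4 : 2 * d4 * r1 - 2 * d3 * d4 = 0 := by
    have : u.coeff 4 = 2 * d4 * r1 - 2 * d3 * d4 := by rw [huform, cf4_4]
    rw [← this, hu0, coeff_zero]
  have d4' : 4 * d4 * d2 + 3 * d3 ^ 2 - 4 * d4 * r0 - 4 * d3 * r1 = 0 := by
    have : R.coeff 4 = 4 * d4 * d2 + 3 * d3 ^ 2 - 4 * d4 * r0 - 4 * d3 * r1 := by
      rw [hRform, cf5_4]
    rw [← this, hR0, coeff_zero]
  have d3' : 4 * d2 * d3 + 8 * d1 * d4 - 4 * d3 * r0 - 4 * d2 * r1 = 0 := by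
    have : R.coeff 3 = 4 * d2 * d3 + 8 * d1 * d4 - 4 * d3 * r0 - 4 * d2 * r1 := by
      rw [hRform, cf5_3]
    rw [← this, hR0, coeff_zero]
  have d2' : 6 * d1 * d3 + 16 * d0 * d4 - 4 * d2 * r0 - 4 * d1 * r1 = 0 := by
    have : R.coeff 2 = 6 * d1 * d3 + 16 * d0 * d4 - 4 * d2 * r0 - 4 * d1 * r1 := by
      rw [hRform, cf5_2]
    rw [← this, hR0, coeff_zero]
  have e5 : r1 = d3 := by
    have : 2 * d4 * (r1 - d3) = 0 := by linear_combination c4
    rcases mul_eq_zero.1 this with h | h
    · exact absurd h (mul_ne_zero h2 hd4)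
    · exact sub_eq_zero.1 h
  subst e5
  refine ⟨r0, ?_, ?_, ?_⟩
  · linear_combination -d4'
  · have : (2 * 2) * (2 * d4 * d1 - r1 * r0) = 0 := by linear_combination d3'
    rcases mul_eq_zero.1 this with h | h
    · exact absurd h (mul_ne_zero h2 h2)
    · exact sub_eq_zero.1 h
  · have : 2 * (8 * d0 * d4 - (2 * d2 * r0 - d1 * r1)) = 0 := by linear_combination d2'
    rcases mul_eq_zero.1 this with h | h
    · exact absurd h h2
    · exact sub_eq_zero.1 h

lemma quartic_three (hq : Fintype.card F = 3)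
    (d0 d1 d2 d3 d4 : F) (h4 : d4 ^ (Fintype.card F / 2) = 1)
    (h : ∀ l : F, (d4 * l ^ 4 + d3 * l ^ 3 + d2 * l ^ 2 + d1 * l + d0) ^ (Fintype.card F / 2) = 1) :
    ∃ r0 : F, 4 * d4 * r0 = 4 * d4 * d2 - d3 ^ 2 ∧ 2 * d4 * d1 = d3 * r0 ∧
      8 * d0 * d4 = 2 * d2 * r0 - d1 * d3 := by
  rw [hq] at h4 h
  norm_num at h4 h
  have h3 : (3 : F) = 0 := by
    have := FiniteField.cast_card_eq_zero F
    rw [hq] at this; exact_mod_cast this
  have hp : ∀ x : F, x ^ 3 = x := by
    intro x; have := FiniteField.pow_card x; rwa [hq] at this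
  have a0 := h 0
  have a1 := h 1
  have am := h (-1)
  have e0 : d0 = 1 := by linear_combination a0
  have e1 : d2 = -1 := by
    linear_combination (-1) * a1 + (-1) * am + 2 * e0 + 2 * h4 + (d2 + 1) * h3
      - (d2 + 1 - d2 - 1) * h3
  have e2 : d1 = -d3 := by
    rw [e0, e1, h4] at a1
    linear_combination a1
  subst e0 e1 e2 h4
  refine ⟨-1 - d3 ^ 2, ?_, ?_, ?_⟩
  · linear_combination (-d3 ^ 2) * h3
  · linear_combination (1 : F) * hp d3
  · linear_combination (2 - d3 ^ 2) * h3

/-- A quartic polynomial over a finite field of odd characteristic whose leading coefficient and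
all of whose values are nonzero squares is a constant times the square of a quadratic polynomial
(expressed through relations between its coefficients). -/
theorem quartic_lemma (hF : ringChar F ≠ 2) (d0 d1 d2 d3 d4 : F)
    (h4 : quadraticChar F d4 = 1)
    (h : ∀ l : F, quadraticChar F (d4 * l ^ 4 + d3 * l ^ 3 + d2 * l ^ 2 + d1 * l + d0) = 1) :
    ∃ r0 : F, 4 * d4 * r0 = 4 * d4 * d2 - d3 ^ 2 ∧ 2 * d4 * d1 = d3 * r0 ∧
      8 * d0 * d4 = 2 * d2 * r0 - d1 * d3 := by
  have key : ∀ x : F, quadraticChar F x = 1 → x ^ (Fintype.card F / 2) = 1 := by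
    intro x hx
    rw [← quadraticChar_eq_pow_of_char_ne_two' hF x, hx]; simp
  have hodd : Fintype.card F % 2 = 1 := FiniteField.odd_card_of_char_ne_two hF
  have h1 : 1 < Fintype.card F := Fintype.one_lt_card
  by_cases hq : 5 ≤ Fintype.card F
  · exact quartic_big hF hq d0 d1 d2 d3 d4 (key _ h4) (fun l => key _ (h l))
  · exact quartic_three (by omega) d0 d1 d2 d3 d4 (key _ h4) (fun l => key _ (h l))

end

end MP5d0678
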