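import Pool.Agent.MP5d0678.Setup
import Pool.Agent.MP5d0678.Quartic

open Finset Module

namespace MP5d0678

variable {F K : Type*} [Field F] [Field K] [Algebra F K]

section fixedpts
variable [FiniteDimensional F K] (σ : K ≃ₐ[F] K) (hσ : orderOf σ = 8)
  (hK : finrank F K = 8) (h2 : (2 : K) ≠ 0) (hG : IsGalois F K)
include hσ hK h2 hG

lemma trace_fixed {x : K} (hx : σ x = x) :
    algebraMap F K (Algebra.trace F K x) = 8 * x := by
  rw [trace_eq σ hσ hK h2 hG]
  simp only [hx]; ring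

lemma eight_ne : (8 : K) ≠ 0 := by
  have : (8 : K) = 2 * 2 * 2 := by norm_num
  rw [this]; exact mul_ne_zero (mul_ne_zero h2 h2) h2

lemma fixed_of_trace_zero {x : K} (hx : σ x = x) (h : Algebra.trace F K x = 0) : x = 0 := by
  have := trace_fixed σ hσ hK h2 hG hx
  rw [h, map_zero] at this
  rcases mul_eq_zero.1 this.symm with h | h
  · exact absurd h (eight_ne σ hσ hK h2 hG)
  · exact h

lemma exists_pre {x : K} (hx : σ x = x) : ∃ a : F, algebraMap F K a = x := by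
  refine ⟨Algebra.trace F K x * (8 : F)⁻¹, ?_⟩
  rw [map_mul, trace_fixed σ hσ hK h2 hG hx, map_inv₀, map_ofNat]
  have := eight_ne σ hσ hK h2 hG
  field_simp

end fixedpts

/-- the bilinear form of the pencil, `K`-valued -/
def Eform (σ : K ≃ₐ[F] K) (i k k1 g a0 lam : K) (w w' : F × Neg (σ ^ 2) × F) : K :=
  a0 * algebraMap F K w.1 * algebraMap F K w'.1 - w.2.1 * w'.2.1 - σ w.2.1 * σ w'.2.1
  + (i * algebraMap F K w.2.2) * (i * algebraMap F K w'.2.2)
  + algebraMap F K w.1 * (k * w'.2.1 + k1 * σ w'.2.1)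
  + algebraMap F K w'.1 * (k * w.2.1 + k1 * σ w.2.1)
  + (lam - g) * (algebraMap F K w.1 * (i * algebraMap F K w'.2.2)
      + algebraMap F K w'.1 * (i * algebraMap F K w.2.2))
  - lam * (w.2.1 * σ w'.2.1 + w'.2.1 * σ w.2.1)

lemma Eform_symm (σ : K ≃ₐ[F] K) (i k k1 g a0 lam : K) (w w' : F × Neg (σ ^ 2) × F) :
    Eform σ i k k1 g a0 lam w w' = Eform σ i k k1 g a0 lam w' w := by
  unfold Eform; ring

lemma Eform_add (σ : K ≃ₐ[F] K) (i k k1 g a0 lam : K) (w1 w2 w' : F × Neg (σ ^ 2) × F) :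
    Eform σ i k k1 g a0 lam (w1 + w2) w'
      = Eform σ i k k1 g a0 lam w1 w' + Eform σ i k k1 g a0 lam w2 w' := by
  unfold Eform
  simp only [Prod.fst_add, Prod.snd_add, map_add, Submodule.coe_add]
  ring

lemma Eform_smul (σ : K ≃ₐ[F] K) (i k k1 g a0 lam : K) (t : F) (w w' : F × Neg (σ ^ 2) × F) :
    Eform σ i k k1 g a0 lam (t • w) w' = t • Eform σ i k k1 g a0 lam w w' := by
  unfold Eform
  simp only [Prod.smul_fst, Prod.smul_snd, map_smul, Submodule.coe_smul, smul_eq_mul, map_mul,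
    Algebra.smul_def, AlgEquiv.commutes]
  ring

/-- the `F`-valued bilinear form -/
noncomputable def Bform (σ : K ≃ₐ[F] K) (i k k1 g a0 lam : K) :
    LinearMap.BilinForm F (F × Neg (σ ^ 2) × F) :=
  LinearMap.mk₂ F (fun w w' => Algebra.trace F K (Eform σ i k k1 g a0 lam w w'))
    (by intro a b d; simp only [Eform_add, map_add])
    (by intro t a b; simp only [Eform_smul, map_smul])
    (by intro a b d; rw [Eform_symm, Eform_add, map_add, Eform_symm, Eform_symm σ i k k1 g a0 lam d])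
    (by intro t a b; rw [Eform_symm, Eform_smul, map_smul, Eform_symm])

lemma Bform_apply (σ : K ≃ₐ[F] K) (i k k1 g a0 lam : K) (w w' : F × Neg (σ ^ 2) × F) :
    Bform σ i k k1 g a0 lam w w' = Algebra.trace F K (Eform σ i k k1 g a0 lam w w') := rfl

lemma Eform_fixed (σ : K ≃ₐ[F] K) {i k k1 g a0 lam : K} (hi : σ i = -i) (hk : σ k = k1)
    (hk1 : σ k1 = -k) (hg : σ g = -g) (ha : σ a0 = a0) (hl : σ lam = -lam)
    (w w' : F × Neg (σ ^ 2) × F) :
    σ (Eform σ i k k1 g a0 lam w w') = Eform σ i k k1 g a0 lam w w' := by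
  have e1 : σ (σ (w.2.1 : K)) = - (w.2.1 : K) := by
    have := mem_Neg.1 w.2.1.2
    simpa [pow_two] using this
  have e2 : σ (σ (w'.2.1 : K)) = - (w'.2.1 : K) := by
    have := mem_Neg.1 w'.2.1.2
    simpa [pow_two] using this
  unfold Eform
  simp only [map_add, map_sub, map_mul, e1, e2, hi, hk, hk1, hg, ha, hl, AlgEquiv.commutes]
  ring

/-- the Gram matrix of the pencil in conjugate coordinates -/
def Nmat (k k1 g a0 lam : K) : Matrix (Fin 4) (Fin 4) K :=
  !![a0, k, k1, lam - g; k, -1, -lam, 0; k1, -lam, -1, 0; lam - g, 0, 0, 1]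

lemma Nmat_det (k k1 g a0 lam : K) : (Nmat k k1 g a0 lam).det =
    (1 - lam ^ 2) * (a0 - (lam - g) ^ 2) + k ^ 2 + k1 ^ 2 - 2 * lam * k * k1 := by
  unfold Nmat
  simp [Matrix.det_succ_row_zero, Fin.sum_univ_succ, Fin.succAbove]
  ring

/-- conjugate coordinates -/
def Tmat (σ : K ≃ₐ[F] K) (i : K) (b : Fin 4 → F × Neg (σ ^ 2) × F) : Matrix (Fin 4) (Fin 4) K :=
  Matrix.of fun r j => ![algebraMap F K (b j).1, ((b j).2.1 : K), σ (b j).2.1,
    i * algebraMap F K (b j).2.2] r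

lemma TNT (σ : K ≃ₐ[F] K) (i k k1 g a0 lam : K) (b : Fin 4 → F × Neg (σ ^ 2) × F) (p q : Fin 4) :
    ((Tmat σ i b).transpose * Nmat k k1 g a0 lam * Tmat σ i b) p q
      = Eform σ i k k1 g a0 lam (b p) (b q) := by
  simp only [Matrix.mul_apply, Fin.sum_univ_four, Matrix.transpose_apply, Tmat, Nmat, Eform,
    Matrix.of_apply]
  simp
  ring

lemma Tdet (σ : K ≃ₐ[F] K) {i : K} (hi : σ i = -i) (b : Fin 4 → F × Neg (σ ^ 2) × F) :
    σ (Tmat σ i b).det = - (Tmat σ i b).det := by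
  have e : ∀ j, σ (σ ((b j).2.1 : K)) = - ((b j).2.1 : K) := by
    intro j
    have := mem_Neg.1 (b j).2.1.2
    simpa [pow_two] using this
  unfold Tmat
  simp [Matrix.det_succ_row_zero, Fin.sum_univ_succ, Fin.succAbove, e, hi]
  ring

end MP5d0678
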