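import Pool.Agent.MP5d0678.Alpha

open Finset Module

namespace MP5d0678

lemma sq_app {F K : Type*} [Field F] [Field K] [Algebra F K] (σ : K ≃ₐ[F] K) (y : K) :
    (σ ^ 2) y = σ (σ y) := by
  rw [pow_two]; rfl

lemma four_app {F K : Type*} [Field F] [Field K] [Algebra F K] (σ : K ≃ₐ[F] K) (y : K) :
    (σ ^ 4) y = σ (σ (σ (σ y))) := by
  simp [pow_succ]

variable {F K : Type*} [Field F] [Fintype F] [DecidableEq F] [Field K] [Finite K] [Algebra F K]
  [FiniteDimensional F K] (σ : K ≃ₐ[F] K) (hσ : orderOf σ = 8)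
  (hK : finrank F K = 8) (h2 : (2 : K) ≠ 0) (hF : ringChar F ≠ 2) (hG : IsGalois F K)

include hσ hK h2 hF hG

/-- vectors in the radical with first coordinate zero vanish -/
lemma rad_zero {i k k1 g a0 lam : K} (hi0 : i ≠ 0) (hi : σ i = -i) (hk : σ k = k1)
    (hk1 : σ k1 = -k) (hg : σ g = -g) (ha : σ a0 = a0) (hl : σ lam = -lam)
    (w : F × Neg (σ ^ 2) × F) (hw1 : w.1 = 0)
    (hw : ∀ w', Bform σ i k k1 g a0 lam w w' = 0) : w = 0 := by
  have hE : ∀ w', Eform σ i k k1 g a0 lam w w' = 0 := fun w' =>
    fixed_of_trace_zero σ hσ hK h2 hG (Eform_fixed σ hi hk hk1 hg ha hl w w') (hw w')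
  rcases w with ⟨s, x, ρ⟩
  simp only at hw1
  subst hw1
  have hxx : σ (σ (x : K)) = -(x : K) := by
    have := mem_Neg.1 x.2
    simpa [pow_two] using this
  have h1 := hE (0, 0, ρ)
  simp only [Eform, map_zero, zero_mul, mul_zero, ZeroMemClass.coe_zero, sub_zero, zero_add,
    add_zero] at h1
  have hρ : ρ = 0 := by
    have : algebraMap F K ρ = 0 := by
      rcases mul_eq_zero.1 h1 with h | h <;> rcases mul_eq_zero.1 h with h | h
      · exact absurd h hi0
      · exact h
      · exact absurd h hi0
      · exact h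
    exact (map_eq_zero _).1 this
  subst hρ
  have hix : i * (x : K) ∈ Neg (σ ^ 2) := by
    rw [mem_Neg, sq_app, map_mul, map_mul, hi, map_neg, hi, hxx]; ring
  have h3 := hE (0, ⟨i * (x : K), hix⟩, 0)
  simp only [Eform, map_zero, zero_mul, mul_zero, ZeroMemClass.coe_zero, sub_zero, zero_add,
    add_zero, map_mul, hi] at h3
  have h4 : i * ((x : K) ^ 2 - (σ x) ^ 2) = 0 := by linear_combination -h3
  have h5 : (x : K) ^ 2 = (σ x) ^ 2 := by
    rcases mul_eq_zero.1 h4 with h | h
    · exact absurd h hi0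
    · exact sub_eq_zero.1 h
  have hx0 : (x : K) = 0 := by
    have h6 : (2 : K) * x = 0 := by
      rcases sq_eq_sq_iff_eq_or_eq_neg.1 h5 with h | h
      · rw [← h, ← h] at hxx
        linear_combination hxx
      · have h7 : σ (x : K) = -(x : K) := by rw [h]; ring_nf; rw [← h]
        rw [h7, map_neg, h7] at hxx
        linear_combination hxx
    rcases mul_eq_zero.1 h6 with h | h
    · exact absurd h h2
    · exact h
  have : x = 0 := by ext; simpa using hx0
  rw [this]; rfl

/-- the zero count of one member of the pencil -/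
lemma member_count [Fintype (F × Neg (σ ^ 2) × F)]
    {i k k1 g a0 lam : K} (hi0 : i ≠ 0) (hi : σ i = -i) (hk : σ k = k1)
    (hk1 : σ k1 = -k) (hg : σ g = -g) (ha : σ a0 = a0) (hl : σ lam = -lam)
    (D : F) (hD : algebraMap F K D = (Nmat k k1 g a0 lam).det) :
    ∃ ε : ℤ, -1 ≤ ε ∧
      (∑ w : F × Neg (σ ^ 2) × F, if Bform σ i k k1 g a0 lam w w = 0 then (1 : ℤ) else 0)
        = (Fintype.card F : ℤ) ^ 3 + (Fintype.card F : ℤ) * ((Fintype.card F : ℤ) - 1) * ε ∧
      (ε = -1 → quadraticChar F D = 1) := by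
  have hdim : finrank F (F × Neg (σ ^ 2) × F) = 4 := by
    rw [Module.finrank_prod, Module.finrank_prod, dimVm σ hσ hK h2, Module.finrank_self]
  obtain ⟨b, hb, hcase⟩ := ortho_cases hF hdim (Bform σ i k k1 g a0 lam)
    (by intro x y; rw [Bform_apply, Bform_apply, Eform_symm])
  have hsum := sum_basis (Bform σ i k k1 g a0 lam) b hb (fun t => if t = 0 then (1 : ℤ) else 0)
  rw [hsum]
  rcases hcase with h | ⟨h3, h0, h1, h2'⟩ | ⟨h3, h2'⟩
  · refine ⟨quadraticChar F (Bform σ i k k1 g a0 lam (b 0) (b 0) *
      Bform σ i k k1 g a0 lam (b 1) (b 1) * Bform σ i k k1 g a0 lam (b 2) (b 2) *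
      Bform σ i k k1 g a0 lam (b 3) (b 3)), ?_, zero4 hF (h 0) (h 1) (h 2) (h 3), ?_⟩
    · rcases quadraticChar_dichotomy (mul_ne_zero (mul_ne_zero (mul_ne_zero (h 0) (h 1)) (h 2))
        (h 3)) with h | h <;> rw [h] <;> norm_num
    · intro hε
      -- determinants
      set T := Tmat σ i b with hT
      have hmat : T.transpose * Nmat k k1 g a0 lam * T =
          Matrix.diagonal (fun j => Eform σ i k k1 g a0 lam (b j) (b j)) := by
        ext p q
        rw [TNT]
        by_cases hpq : p = q
        · subst hpq; simp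
        · rw [Matrix.diagonal_apply_ne _ hpq]
          exact fixed_of_trace_zero σ hσ hK h2 hG (Eform_fixed σ hi hk hk1 hg ha hl _ _)
            (hb p q hpq)
      have hdet := congrArg Matrix.det hmat
      rw [Matrix.det_mul, Matrix.det_mul, Matrix.det_transpose, Matrix.det_diagonal,
        Fin.prod_univ_four, ← hD] at hdet
      obtain ⟨φ, hφ⟩ := exists_pre σ hσ hK h2 hG (x := T.det * i) (by
        rw [map_mul, hT, Tdet σ hi, hi]; ring)
      obtain ⟨ν, hν⟩ := exists_pre σ hσ hK h2 hG (x := i * i) (by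
        rw [map_mul, hi]; ring)
      have hB : ∀ j, algebraMap F K (Bform σ i k k1 g a0 lam (b j) (b j))
          = 8 * Eform σ i k k1 g a0 lam (b j) (b j) := fun j =>
        trace_fixed σ hσ hK h2 hG (Eform_fixed σ hi hk hk1 hg ha hl _ _)
      have hprod : ν * (Bform σ i k k1 g a0 lam (b 0) (b 0) *
          Bform σ i k k1 g a0 lam (b 1) (b 1) * Bform σ i k k1 g a0 lam (b 2) (b 2) *
          Bform σ i k k1 g a0 lam (b 3) (b 3)) = (64 * φ) ^ 2 * D := by
        apply (algebraMap F K).injective
        simp only [map_mul, map_pow, hB, hν, hφ, map_ofNat]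
        linear_combination (-4096 * i * i) * hdet
      have hνns : quadraticChar F ν = -1 := by
        rw [quadraticChar_neg_one_iff_not_isSquare]
        rintro ⟨e, he⟩
        have h1 : (algebraMap F K e) ^ 2 = i ^ 2 := by
          rw [pow_two, ← map_mul, ← he, hν]; ring
        have h2a : (2 : K) * i = 0 := by
          rcases sq_eq_sq_iff_eq_or_eq_neg.1 h1 with h | h
          · have := σ.commutes e
            rw [h, hi] at this
            linear_combination -this
          · have := σ.commutes e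
            rw [h, map_neg, hi] at this
            linear_combination this
        rcases mul_eq_zero.1 h2a with h | h
        · exact h2 h
        · exact hi0 h
      have h4 := congrArg (quadraticChar F) hprod
      rw [map_mul, hε, hνns, map_mul, map_pow] at h4
      have h5 : (quadraticChar F) (64 * φ) ^ 2 = 0 ∨ (quadraticChar F) (64 * φ) ^ 2 = 1 := by
        by_cases h6 : 64 * φ = 0
        · left; rw [h6]; simp
        · right; exact quadraticChar_sq_one h6
      rcases h5 with h5 | h5
      · rw [h5] at h4; norm_num at h4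
      · rw [h5] at h4; linarith
  · refine ⟨0, by norm_num, ?_, by norm_num⟩
    have := zero3 hF h0 h1 h2'
    rw [h3]
    simp only [zero_mul, add_zero, mul_zero]
    rw [this]
  · exfalso
    have hr2 : ∀ w', Bform σ i k k1 g a0 lam (b 2) w' = 0 := by
      intro w'
      rw [← b.sum_repr w', map_sum]
      refine Finset.sum_eq_zero fun j _ => ?_
      rw [map_smul]
      by_cases hj : j = 2
      · rw [hj, h2', smul_zero]
      · rw [hb 2 j (Ne.symm hj), smul_zero]
    have hr3 : ∀ w', Bform σ i k k1 g a0 lam (b 3) w' = 0 := by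
      intro w'
      rw [← b.sum_repr w', map_sum]
      refine Finset.sum_eq_zero fun j _ => ?_
      rw [map_smul]
      by_cases hj : j = 3
      · rw [hj, h3, smul_zero]
      · rw [hb 3 j (Ne.symm hj), smul_zero]
    have hw := rad_zero σ hσ hK h2 hF hG hi0 hi hk hk1 hg ha hl
      ((b 3).1 • b 2 - (b 2).1 • b 3) (by simp; ring) (by
        intro w'
        rw [map_sub, LinearMap.sub_apply, map_smul, map_smul, LinearMap.smul_apply,
          LinearMap.smul_apply, hr2, hr3]; simp)
    have hli := b.linearIndependent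
    rw [Fintype.linearIndependent_iff] at hli
    have h4 := hli ![0, 0, (b 3).1, -(b 2).1] (by
      rw [Fin.sum_univ_four]
      simp only [Matrix.cons_val_zero, Matrix.cons_val_one, Matrix.cons_val]
      rw [← hw]; simp [sub_eq_add_neg])
    have h5 : (b 3).1 = 0 := h4 2
    have h6 : b 3 = 0 := rad_zero σ hσ hK h2 hF hG hi0 hi hk hk1 hg ha hl (b 3) h5 hr3
    exact b.ne_zero 3 h6

end MP5d0678
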