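import Pool.Agent.MP5d0678.Alpha2

open Finset Module

namespace MP5d0678

/-- the algebraic contradiction at the end of the pencil argument -/
lemma contr {F K : Type*} [Field F] [Field K] [Algebra F K] (σ : K ≃ₐ[F] K)
    (h2 : (2 : K) ≠ 0) (c c1 c2 c3 k k1 g a0 : K) (h01 : σ c = c1) (h12 : σ c1 = c2)
    (h23 : σ c2 = c3) (h30 : σ c3 = c) (hc0 : c ≠ 0) (hc1 : c ^ 2 ≠ 1)
    (hk : k = c * c1 - c2 * c3) (hk1 : k1 = c1 * c2 - c3 * c) (hg : g = c * c2 - c1 * c3)
    (ha : a0 = 1 - (c ^ 2 + c1 ^ 2 + c2 ^ 2 + c3 ^ 2) + (c * c2 + c1 * c3) ^ 2)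
    (e1 : g * (1 - a0) = 2 * k * k1) (e2 : 4 * (k ^ 2 + k1 ^ 2 - g ^ 2) = (a0 - 1) ^ 2) : False := by
  have hsk : σ k = k1 := by rw [hk, hk1, map_sub, map_mul, map_mul, h01, h12, h23, h30]
  have hsk1 : σ k1 = -k := by rw [hk, hk1, map_sub, map_mul, map_mul, h01, h12, h23, h30]; ring
  have hsg : σ g = -g := by rw [hg, map_sub, map_mul, map_mul, h01, h12, h23, h30]; ring
  have hc1n : c1 ≠ 0 := by rw [← h01]; simpa using hc0
  have hc2n : c2 ≠ 0 := by rw [← h12]; simpa using hc1n
  have hc3n : c3 ≠ 0 := by rw [← h23]; simpa using hc2n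
  have h4 : (2 * 2 : K) ≠ 0 := mul_ne_zero h2 h2
  have e3 : (2 * 2) * ((k ^ 2 - g ^ 2) * (k1 ^ 2 - g ^ 2)) = 0 := by
    have : g ^ 2 * (a0 - 1) ^ 2 = 4 * k ^ 2 * k1 ^ 2 := by
      have h' : (g * (1 - a0)) ^ 2 = (2 * k * k1) ^ 2 := by rw [e1]
      linear_combination h'
    linear_combination (-g ^ 2) * e2 - this
  have e4 : (k ^ 2 - g ^ 2) * (k1 ^ 2 - g ^ 2) = 0 := by
    rcases mul_eq_zero.1 e3 with h | h
    · exact absurd h h4
    · exact h
  have e5 : σ (k ^ 2 - g ^ 2) = k1 ^ 2 - g ^ 2 := by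
    rw [map_sub, map_pow, map_pow, hsk, hsg]; ring
  have e6 : k ^ 2 = g ^ 2 ∧ k1 ^ 2 = g ^ 2 := by
    rcases mul_eq_zero.1 e4 with h | h
    · refine ⟨sub_eq_zero.1 h, ?_⟩
      rw [h, map_zero] at e5
      exact sub_eq_zero.1 e5.symm
    · refine ⟨?_, sub_eq_zero.1 h⟩
      rw [h] at e5
      have := (map_eq_zero σ).1 e5
      exact sub_eq_zero.1 this
  have hk0 : k = 0 := by
    have h5 : k1 ^ 2 = k ^ 2 := by rw [e6.1, e6.2]
    have h6 : 2 * k = 0 := by
      rcases sq_eq_sq_iff_eq_or_eq_neg.1 h5 with h | h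
      · have := hsk1
        rw [h, hsk, h] at this
        linear_combination this
      · have := hsk1
        rw [h, map_neg, hsk, h] at this
        linear_combination this
    rcases mul_eq_zero.1 h6 with h | h
    · exact absurd h h2
    · exact h
  have hg0 : g = 0 := by
    have := e6.1
    rw [hk0] at this
    have : g ^ 2 = 0 := by rw [← this]; ring
    exact pow_eq_zero_iff (by norm_num) |>.1 this
  have hk10 : k1 = 0 := by rw [← hsk, hk0, map_zero]
  have ha1 : a0 = 1 := by
    have : (a0 - 1) ^ 2 = 0 := by rw [← e2, hk0, hk10, hg0]; ring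
    have := pow_eq_zero_iff (by norm_num : (2 : ℕ) ≠ 0) |>.1 this
    exact sub_eq_zero.1 this
  -- c c1 = c2 c3, c c2 = c1 c3, c1 c2 = c3 c
  have f1 : c * c1 = c2 * c3 := by rw [hk0] at hk; linear_combination -hk
  have f2 : c * c2 = c1 * c3 := by rw [hg0] at hg; linear_combination -hg
  have f3 : c1 * c2 = c3 * c := by rw [hk10] at hk1; linear_combination -hk1
  have s3 : c3 ^ 2 = c ^ 2 := by
    have : c1 * c2 * (c3 ^ 2 - c ^ 2) = 0 := by linear_combination (-c * c2) * f1 - (c2 * c3) * f2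
    rcases mul_eq_zero.1 this with h | h
    · exact absurd h (mul_ne_zero hc1n hc2n)
    · exact sub_eq_zero.1 h
  have s2 : c2 ^ 2 = c ^ 2 := by
    have : c1 * c3 * (c2 ^ 2 - c ^ 2) = 0 := by linear_combination (-c * c3) * f1 + (c2 * c3) * f3
    rcases mul_eq_zero.1 this with h | h
    · exact absurd h (mul_ne_zero hc1n hc3n)
    · exact sub_eq_zero.1 h
  have s1 : c1 ^ 2 = c ^ 2 := by
    have : c2 * c3 * (c1 ^ 2 - c ^ 2) = 0 := by linear_combination (c1 * c3) * f3 - (c * c3) * f2
    rcases mul_eq_zero.1 this with h | h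
    · exact absurd h (mul_ne_zero hc2n hc3n)
    · exact sub_eq_zero.1 h
  have e7 : (2 * 2) * (c ^ 2 * (c ^ 2 - 1)) = 0 := by
    rw [ha1] at ha
    have hsq : (c * c2 + c1 * c3) ^ 2 = 4 * (c ^ 2 * c ^ 2) := by
      rw [← f2]
      calc (c * c2 + c * c2) ^ 2 = 4 * (c ^ 2 * c2 ^ 2) := by ring
        _ = _ := by rw [s2]
    rw [hsq, s1, s2, s3] at ha
    linear_combination -ha
  rcases mul_eq_zero.1 e7 with h | h
  · exact h4 h
  · rcases mul_eq_zero.1 h with h | h
    · exact hc0 (pow_eq_zero_iff (by norm_num) |>.1 h)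
    · exact hc1 (sub_eq_zero.1 h)

variable {F K : Type*} [Field F] [Fintype F] [DecidableEq F] [Field K] [Finite K] [Algebra F K]
  [FiniteDimensional F K] (σ : K ≃ₐ[F] K) (hσ : orderOf σ = 8)
  (hK : finrank F K = 8) (h2 : (2 : K) ≠ 0) (hF : ringChar F ≠ 2) (hG : IsGalois F K)

lemma inner_count (h2F : (2 : F) ≠ 0) (e0 e1 : F) :
    (∑ l : F, if e0 + 2 * l * e1 = 0 then (1 : ℤ) else 0)
      = if e1 = 0 then (if e0 = 0 then (Fintype.card F : ℤ) else 0) else 1 := by
  by_cases h1 : e1 = 0
  · subst h1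
    by_cases h0 : e0 = 0
    · subst h0; simp
    · simp [h0]
  · rw [if_neg h1]
    have : ∀ l : F, (e0 + 2 * l * e1 = 0) ↔ l = -e0 / (2 * e1) := by
      intro l
      rw [eq_div_iff (mul_ne_zero h2F h1)]
      constructor
      · intro h; linear_combination h
      · intro h; linear_combination h
    simp only [this]
    simp

include hσ hK h2 hF hG

lemma e1_count [Fintype (Neg (σ ^ 2))] {i : K} (hi0 : i ≠ 0) (hi : σ i = -i) :
    (∑ w : F × Neg (σ ^ 2) × F, if Algebra.trace F K
      (i * (algebraMap F K w.1 * (i * algebraMap F K w.2.2) - (w.2.1 : K) * σ w.2.1)) = 0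
        then (1 : ℤ) else 0)
      = (Fintype.card F : ℤ) + ((Fintype.card F : ℤ) - 1) * (Fintype.card F : ℤ) ^ 2 := by
  classical
  have hνfix : σ (i * i) = i * i := by rw [map_mul, hi]; ring
  have hν : Algebra.trace F K (i * i) ≠ 0 := fun h =>
    mul_ne_zero hi0 hi0 (fixed_of_trace_zero σ hσ hK h2 hG hνfix h)
  have hsplit : ∀ (s : F) (x : Neg (σ ^ 2)) (ρ : F), Algebra.trace F K
      (i * (algebraMap F K s * (i * algebraMap F K ρ) - (x : K) * σ x))
      = (s * ρ) * Algebra.trace F K (i * i) - Algebra.trace F K (i * ((x : K) * σ x)) := by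
    intro s x ρ
    have : i * (algebraMap F K s * (i * algebraMap F K ρ) - (x : K) * σ x)
        = (s * ρ) • (i * i) - i * ((x : K) * σ x) := by
      rw [Algebra.smul_def, map_mul]; ring
    rw [this, map_sub, map_smul, smul_eq_mul]
  have hm : ∀ x : Neg (σ ^ 2), Algebra.trace F K (i * ((x : K) * σ x)) = 0 ↔ x = 0 := by
    intro x
    have hxx : σ (σ (x : K)) = -(x : K) := by rw [← sq_app]; exact x.2
    constructor
    · intro h
      have := fixed_of_trace_zero σ hσ hK h2 hG (x := i * ((x : K) * σ x)) (by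
        rw [map_mul, map_mul, hxx, hi]; ring) h
      rcases mul_eq_zero.1 this with h | h
      · exact absurd h hi0
      · rcases mul_eq_zero.1 h with h | h
        · ext; simpa using h
        · ext; simpa using h
    · rintro rfl; simp
  have hcard : (Fintype.card (Neg (σ ^ 2)) : ℤ) = (Fintype.card F : ℤ) ^ 2 := by
    rw [Module.card_eq_pow_finrank (K := F), dimVm σ hσ hK h2]; push_cast; rfl
  simp only [Fintype.sum_prod_type]
  have h1 : ∀ s : F, (∑ x : Neg (σ ^ 2), ∑ ρ : F, if Algebra.trace F K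
      (i * (algebraMap F K s * (i * algebraMap F K ρ) - (x : K) * σ x)) = 0
        then (1 : ℤ) else 0) = if s = 0 then (Fintype.card F : ℤ) else (Fintype.card F : ℤ) ^ 2 := by
    intro s
    by_cases hs : s = 0
    · subst hs
      rw [if_pos rfl]
      have : ∀ x : Neg (σ ^ 2), (∑ ρ : F, if Algebra.trace F K
          (i * (algebraMap F K 0 * (i * algebraMap F K ρ) - (x : K) * σ x)) = 0
          then (1 : ℤ) else 0) = if x = 0 then (Fintype.card F : ℤ) else 0 := by
        intro x
        by_cases hx : x = 0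
        · subst hx; simp
        · rw [if_neg hx]
          refine Finset.sum_eq_zero fun ρ _ => ?_
          rw [if_neg]
          rw [hsplit, zero_mul, zero_mul, zero_sub, neg_eq_zero, hm]
          exact hx
      rw [Finset.sum_congr rfl fun x _ => this x]
      simp
    · rw [if_neg hs, ← hcard]
      have : ∀ x : Neg (σ ^ 2), (∑ ρ : F, if Algebra.trace F K
          (i * (algebraMap F K s * (i * algebraMap F K ρ) - (x : K) * σ x)) = 0
          then (1 : ℤ) else 0) = 1 := by
        intro x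
        have h3 : ∀ ρ : F, (Algebra.trace F K
          (i * (algebraMap F K s * (i * algebraMap F K ρ) - (x : K) * σ x)) = 0) ↔
          ρ = Algebra.trace F K (i * ((x : K) * σ x)) / (s * Algebra.trace F K (i * i)) := by
          intro ρ
          rw [hsplit, eq_div_iff (mul_ne_zero hs hν)]
          constructor
          · intro h; linear_combination h
          · intro h; linear_combination h
        simp only [h3]
        simp
      rw [Finset.sum_congr rfl fun x _ => this x]
      simp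
  rw [Finset.sum_congr rfl fun s _ => h1 s]
  have h5 : ∀ s : F, (if s = 0 then (Fintype.card F : ℤ) else (Fintype.card F : ℤ) ^ 2)
      = (Fintype.card F : ℤ) ^ 2 + (if s = 0 then ((Fintype.card F : ℤ) - (Fintype.card F : ℤ) ^ 2)
        else 0) := by
    intro s; split_ifs <;> ring
  rw [Finset.sum_congr rfl fun s _ => h5 s, Finset.sum_add_distrib]
  simp
  ring

/-- existence of a point on the quartic curve -/
theorem alpha (c c1 c2 c3 k k1 g a0 : K) (h01 : σ c = c1) (h12 : σ c1 = c2)
    (h23 : σ c2 = c3) (h30 : σ c3 = c) (hc0 : c ≠ 0) (hc1 : c ^ 2 ≠ 1)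
    (hk : k = c * c1 - c2 * c3) (hk1 : k1 = c1 * c2 - c3 * c) (hg : g = c * c2 - c1 * c3)
    (ha : a0 = 1 - (c ^ 2 + c1 ^ 2 + c2 ^ 2 + c3 ^ 2) + (c * c2 + c1 * c3) ^ 2) :
    ∃ x : K, σ (σ x) = -x ∧ a0 - x ^ 2 - (σ x) ^ 2 + x ^ 2 * (σ x) ^ 2 + 2 * k * x
      + 2 * k1 * σ x - 2 * g * (x * σ x) = 0 := by
  classical
  by_contra hcon
  push Not at hcon
  obtain ⟨i, hi0, hi⟩ := exists_neg1 σ hσ
  have hsk : σ k = k1 := by rw [hk, hk1, map_sub, map_mul, map_mul, h01, h12, h23, h30]
  have hsk1 : σ k1 = -k := by rw [hk, hk1, map_sub, map_mul, map_mul, h01, h12, h23, h30]; ring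
  have hsg : σ g = -g := by rw [hg, map_sub, map_mul, map_mul, h01, h12, h23, h30]; ring
  have hsa : σ a0 = a0 := by
    rw [ha]; simp only [map_sub, map_add, map_mul, map_pow, map_one, h01, h12, h23, h30]; ring
  have h2F : (2 : F) ≠ 0 := Ring.two_ne_zero hF
  haveI : Fintype (Neg (σ ^ 2)) := Fintype.ofFinite _
  -- coefficients of the discriminant
  obtain ⟨d4, hd4⟩ := exists_pre σ hσ hK h2 hG (x := i ^ 4) (by rw [map_pow, hi]; ring)
  obtain ⟨d3, hd3⟩ := exists_pre σ hσ hK h2 hG (x := -2 * g * i ^ 3) (by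
    rw [map_mul, map_mul, map_neg, map_ofNat, map_pow, hi, hsg]; ring)
  obtain ⟨d2, hd2⟩ := exists_pre σ hσ hK h2 hG (x := (g ^ 2 - a0 - 1) * i ^ 2) (by
    rw [map_mul, map_sub, map_sub, map_pow, map_pow, hi, hsg, hsa, map_one]; ring)
  obtain ⟨d1, hd1⟩ := exists_pre σ hσ hK h2 hG (x := (2 * g - 2 * k * k1) * i) (by
    simp only [map_mul, map_sub, hi, hsg, hsk, hsk1, map_ofNat]; ring)
  obtain ⟨d0, hd0⟩ := exists_pre σ hσ hK h2 hG (x := a0 - g ^ 2 + k ^ 2 + k1 ^ 2) (by
    simp only [map_add, map_sub, map_pow, hsg, hsk, hsk1, hsa]; ring)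
  have hmem : ∀ l : F, ∃ ε : ℤ, -1 ≤ ε ∧
      (∑ w : F × Neg (σ ^ 2) × F, if Bform σ i k k1 g a0 (i * algebraMap F K l) w w = 0
        then (1 : ℤ) else 0)
        = (Fintype.card F : ℤ) ^ 3 + (Fintype.card F : ℤ) * ((Fintype.card F : ℤ) - 1) * ε ∧
      (ε = -1 → quadraticChar F (d4 * l ^ 4 + d3 * l ^ 3 + d2 * l ^ 2 + d1 * l + d0) = 1) := by
    intro l
    apply member_count σ hσ hK h2 hF hG hi0 hi hsk hsk1 hsg hsa
    · rw [map_mul, hi, σ.commutes]; ring
    · rw [Nmat_det]
      simp only [map_add, map_mul, map_pow, hd4, hd3, hd2, hd1, hd0]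
      ring
  choose ε hε1 hε2 hε3 using hmem
  -- the double count
  have hBl : ∀ (l : F) (w : F × Neg (σ ^ 2) × F), Bform σ i k k1 g a0 (i * algebraMap F K l) w w
      = Bform σ i k k1 g a0 0 w w + 2 * l * Algebra.trace F K
      (i * (algebraMap F K w.1 * (i * algebraMap F K w.2.2) - (w.2.1 : K) * σ w.2.1)) := by
    intro l w
    rw [Bform_apply, Bform_apply]
    have : Eform σ i k k1 g a0 (i * algebraMap F K l) w w = Eform σ i k k1 g a0 0 w w
        + (2 * l) • (i * (algebraMap F K w.1 * (i * algebraMap F K w.2.2)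
          - (w.2.1 : K) * σ w.2.1)) := by
      rw [Algebra.smul_def, map_mul, map_ofNat]
      unfold Eform; ring
    rw [this, map_add, map_smul, smul_eq_mul]
  have hzero : ∀ w : F × Neg (σ ^ 2) × F, Bform σ i k k1 g a0 0 w w = 0 →
      Algebra.trace F K
      (i * (algebraMap F K w.1 * (i * algebraMap F K w.2.2) - (w.2.1 : K) * σ w.2.1)) = 0 →
      w = 0 := by
    rintro ⟨s, x, ρ⟩ hw1 hw2
    have hxx : σ (σ (x : K)) = -(x : K) := by rw [← sq_app]; exact x.2
    have g1 := fixed_of_trace_zero σ hσ hK h2 hG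
      (Eform_fixed σ hi hsk hsk1 hsg hsa (by simp) _ _) hw1
    have g2 := fixed_of_trace_zero σ hσ hK h2 hG (x := i * (algebraMap F K s *
      (i * algebraMap F K ρ) - (x : K) * σ x)) (by
        simp only [map_mul, map_sub, hi, σ.commutes, hxx]; ring) hw2
    have g3 : algebraMap F K s * (i * algebraMap F K ρ) = (x : K) * σ x := by
      rcases mul_eq_zero.1 g2 with h | h
      · exact absurd h hi0
      · exact sub_eq_zero.1 h
    by_cases hs : s = 0
    · subst hs
      rw [map_zero, zero_mul] at g3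
      have hx0 : (x : K) = 0 := by
        rcases mul_eq_zero.1 g3.symm with h | h
        · exact h
        · simpa using h
      have hx : x = 0 := by ext; simpa using hx0
      subst hx
      simp only [Eform, map_zero, zero_mul, mul_zero, ZeroMemClass.coe_zero, sub_zero, zero_add,
        add_zero] at g1
      have hρ : ρ = 0 := by
        have : algebraMap F K ρ = 0 := by
          rcases mul_eq_zero.1 g1 with h | h <;> rcases mul_eq_zero.1 h with h | h
          · exact absurd h hi0
          · exact h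
          · exact absurd h hi0
          · exact h
        exact (map_eq_zero _).1 this
      rw [hρ]; rfl
    · exfalso
      have hsK : algebraMap F K s ≠ 0 := by
        rwa [Ne, map_eq_zero]
      set S := algebraMap F K s with hS
      have hSfix : σ S = S := σ.commutes s
      apply hcon ((x : K) / S)
      · rw [map_div₀, map_div₀, hSfix, hSfix, hxx]; ring
      · rw [map_div₀, hSfix]
        simp only [Eform, zero_sub, zero_mul, sub_zero] at g1
        have hX : ∀ X Y : K, S * (i * algebraMap F K ρ) = X * Y →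
            a0 * S * S - X * X - Y * Y + (i * algebraMap F K ρ) * (i * algebraMap F K ρ)
              + S * (k * X + k1 * Y) + S * (k * X + k1 * Y)
              + (-g) * (S * (i * algebraMap F K ρ) + S * (i * algebraMap F K ρ)) = 0 →
            a0 - (X / S) ^ 2 - (Y / S) ^ 2 + (X / S) ^ 2 * (Y / S) ^ 2 + 2 * k * (X / S)
              + 2 * k1 * (Y / S) - 2 * g * (X / S * (Y / S)) = 0 := by
          intro X Y hXY hE
          have hr : i * algebraMap F K ρ = X * Y / S := by
            rw [eq_div_iff hsK]; linear_combination hXY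
          rw [hr] at hE
          field_simp
          field_simp at hE
          linear_combination hE
        exact hX _ _ g3 g1
  have hdouble : ∑ l : F, ∑ w : F × Neg (σ ^ 2) × F,
      (if Bform σ i k k1 g a0 (i * algebraMap F K l) w w = 0 then (1 : ℤ) else 0)
      = (Fintype.card F : ℤ) ^ 4 - ((Fintype.card F : ℤ) +
        ((Fintype.card F : ℤ) - 1) * (Fintype.card F : ℤ) ^ 2) + (Fintype.card F : ℤ) := by
    rw [Finset.sum_comm]
    have h1 : ∀ w : F × Neg (σ ^ 2) × F, (∑ l : F,
        (if Bform σ i k k1 g a0 (i * algebraMap F K l) w w = 0 then (1 : ℤ) else 0))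
        = 1 - (if Algebra.trace F K (i * (algebraMap F K w.1 * (i * algebraMap F K w.2.2)
          - (w.2.1 : K) * σ w.2.1)) = 0 then (1 : ℤ) else 0)
          + (if w = 0 then (Fintype.card F : ℤ) else 0) := by
      intro w
      simp only [hBl]
      rw [inner_count h2F]
      by_cases hw : w = 0
      · subst hw
        simp [Bform_apply, Eform]
      · by_cases h5 : Algebra.trace F K (i * (algebraMap F K w.1 * (i * algebraMap F K w.2.2)
          - (w.2.1 : K) * σ w.2.1)) = 0
        · rw [if_pos h5, if_neg (fun h => hw (hzero w h h5)), if_pos h5, if_neg hw]; ring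
        · rw [if_neg h5, if_neg h5, if_neg hw]; ring
    rw [Finset.sum_congr rfl fun w _ => h1 w, Finset.sum_add_distrib, Finset.sum_sub_distrib,
      e1_count σ hσ hK h2 hF hG hi0 hi]
    have h3 : ∑ _w : F × Neg (σ ^ 2) × F, (1 : ℤ) = (Fintype.card F : ℤ) ^ 4 := by
      rw [Finset.sum_const, Finset.card_univ, Module.card_eq_pow_finrank (K := F),
        Module.finrank_prod, Module.finrank_prod, dimVm σ hσ hK h2, Module.finrank_self]
      simp
    rw [h3]
    simp
  have hsum : ∑ l : F, (ε l + 1) = 0 := by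
    have h1 : ∑ l : F, ((Fintype.card F : ℤ) ^ 3 +
        (Fintype.card F : ℤ) * ((Fintype.card F : ℤ) - 1) * ε l)
        = (Fintype.card F : ℤ) ^ 4 - ((Fintype.card F : ℤ) +
        ((Fintype.card F : ℤ) - 1) * (Fintype.card F : ℤ) ^ 2) + (Fintype.card F : ℤ) := by
      rw [← hdouble]
      exact Finset.sum_congr rfl fun l _ => (hε2 l).symm
    rw [Finset.sum_add_distrib, ← Finset.mul_sum] at h1
    simp only [Finset.sum_const, Finset.card_univ, nsmul_eq_mul] at h1
    rw [Finset.sum_add_distrib]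
    simp only [Finset.sum_const, Finset.card_univ, nsmul_eq_mul, mul_one]
    have hq : (1 : ℤ) < (Fintype.card F : ℤ) := by exact_mod_cast Fintype.one_lt_card
    have h4 : (Fintype.card F : ℤ) * ((Fintype.card F : ℤ) - 1) *
        (∑ l : F, ε l + (Fintype.card F : ℤ)) = 0 := by linear_combination h1
    rcases mul_eq_zero.1 h4 with h | h
    · rcases mul_eq_zero.1 h with h | h <;> linarith
    · exact h
  have hall : ∀ l : F, ε l = -1 := by
    intro l
    have := (Finset.sum_eq_zero_iff_of_nonneg (fun l _ => by have := hε1 l; linarith)).1 hsum l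
      (Finset.mem_univ l)
    linarith
  obtain ⟨r0, q1, q2, q3⟩ := quartic_lemma hF d0 d1 d2 d3 d4 (by
    have h : d4 = (d4 : F) := rfl
    obtain ⟨ν, hν⟩ := exists_pre σ hσ hK h2 hG (x := i * i) (by rw [map_mul, hi]; ring)
    have h5 : d4 = ν ^ 2 := by
      apply (algebraMap F K).injective
      rw [hd4, map_pow, hν]; ring
    rw [h5]
    apply quadraticChar_sq_one'
    rintro rfl
    rw [map_zero] at hν
    exact mul_ne_zero hi0 hi0 hν.symm) (fun l => hε3 l (hall l))
  have p1 := congrArg (algebraMap F K) q1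
  have p2 := congrArg (algebraMap F K) q2
  have p3 := congrArg (algebraMap F K) q3
  simp only [map_sub, map_mul, map_pow, map_ofNat, hd4, hd3, hd2, hd1, hd0] at p1 p2 p3
  -- deduce the two relations
  have h4 : (2 * 2 : K) ≠ 0 := mul_ne_zero h2 h2
  have hi4 : i ^ 4 ≠ 0 := pow_ne_zero _ hi0
  have hr : algebraMap F K r0 = (-a0 - 1) * i ^ 2 := by
    have : (2 * 2) * i ^ 4 * (algebraMap F K r0 - (-a0 - 1) * i ^ 2) = 0 := by
      linear_combination p1
    rcases mul_eq_zero.1 this with h | h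
    · exact absurd h (mul_ne_zero h4 hi4)
    · exact sub_eq_zero.1 h
  rw [hr] at p2 p3
  have r1 : g * (1 - a0) = 2 * k * k1 := by
    have : 2 * i ^ 5 * (g * (1 - a0) - 2 * k * k1) = 0 := by linear_combination p2
    rcases mul_eq_zero.1 this with h | h
    · exact absurd h (mul_ne_zero h2 (pow_ne_zero _ hi0))
    · exact sub_eq_zero.1 h
  have r2 : 4 * (k ^ 2 + k1 ^ 2 - g ^ 2) = (a0 - 1) ^ 2 := by
    have : 2 * i ^ 4 * (4 * (k ^ 2 + k1 ^ 2 - g ^ 2) - (a0 - 1) ^ 2) = 0 := by
      linear_combination p3 + (2 * g * i ^ 4) * r1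
    rcases mul_eq_zero.1 this with h | h
    · exact absurd h (mul_ne_zero h2 hi4)
    · exact sub_eq_zero.1 h
  exact contr σ h2 c c1 c2 c3 k k1 g a0 h01 h12 h23 h30 hc0 hc1 hk hk1 hg ha r1 r2

end MP5d0678
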