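import Mathlib

open Finset

namespace MP5d0678

section
variable {F : Type*} [Field F] [Fintype F] [DecidableEq F]

lemma sum_sq (hF : ringChar F ≠ 2) (G : F → ℤ) :
    ∑ y : F, G (y ^ 2) = ∑ u : F, (1 + quadraticChar F u) * G u := by
  classical
  have h1 : ∑ y : F, G (y ^ 2) = ∑ u : F, ∑ y : F, if y ^ 2 = u then G u else 0 := by
    rw [Finset.sum_comm]
    refine Finset.sum_congr rfl fun y _ => ?_
    simp
  rw [h1]
  refine Finset.sum_congr rfl fun u _ => ?_
  rw [← Finset.sum_filter, Finset.sum_const, nsmul_eq_mul]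
  have h2 := quadraticChar_card_sqrts hF u
  have h3 : (Finset.univ.filter fun y : F => y ^ 2 = u) = {x : F | x ^ 2 = u}.toFinset := by
    ext y; simp
  rw [h3, h2]; ring

lemma chi_inv (a : F) : quadraticChar F a⁻¹ = quadraticChar F a := by
  by_cases h : a = 0
  · simp [h]
  · have h1 : quadraticChar F (a * a⁻¹) = 1 := by rw [mul_inv_cancel₀ h]; simp
    rw [map_mul] at h1
    have h2 := quadraticChar_dichotomy h
    rcases h2 with h2 | h2 <;> rw [h2] at h1 ⊢ <;> linarith

lemma sum_ax2 (hF : ringChar F ≠ 2) {a : F} (ha : a ≠ 0) (G : F → ℤ) :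
    ∑ y : F, G (a * y ^ 2) = ∑ v : F, (1 + quadraticChar F a * quadraticChar F v) * G v := by
  rw [sum_sq hF (fun u => G (a * u))]
  refine Fintype.sum_equiv (Equiv.mulLeft₀ a ha) _ _ fun u => ?_
  have e : (Equiv.mulLeft₀ a ha) u = a * u := rfl
  simp only [e, map_mul]
  have h : quadraticChar F a * quadraticChar F a = 1 := by
    rw [← map_mul, ← sq]; exact quadraticChar_sq_one' ha
  rw [← mul_assoc (quadraticChar F a), h]; ring

lemma chi_mul_self {a : F} (ha : a ≠ 0) : quadraticChar F a * quadraticChar F a = 1 := by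
  rw [← map_mul, ← sq]; exact quadraticChar_sq_one' ha

lemma sum_one_sub (hF : ringChar F ≠ 2) : ∑ t : F, quadraticChar F t * quadraticChar F (1 - t) = - quadraticChar F (-1) := by
  have h := jacobiSum_nontrivial_inv (R := ℤ) (quadraticChar_ne_one hF)
  rw [(quadraticChar_isQuadratic F).inv] at h
  exact h

lemma conv_zero (hF : ringChar F ≠ 2) : ∑ v : F, quadraticChar F v * quadraticChar F (0 - v) = ((Fintype.card F : ℤ) - 1) * quadraticChar F (-1) := by
  have h1 : ∀ v : F, quadraticChar F v * quadraticChar F (0 - v) = quadraticChar F (-1) - (if v = 0 then quadraticChar F (-1) else 0) := by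
    intro v
    by_cases h : v = 0
    · simp [h]
    · have : (0 - v) = (-1) * v := by ring
      rw [this, map_mul, mul_comm (quadraticChar F (-1)), ← mul_assoc, chi_mul_self h]; simp [h]
  rw [Finset.sum_congr rfl fun v _ => h1 v, Finset.sum_sub_distrib]
  simp; ring

lemma conv_ne (hF : ringChar F ≠ 2) {b : F} (hb : b ≠ 0) :
    ∑ v : F, quadraticChar F v * quadraticChar F (b - v) = - quadraticChar F (-1) := by
  rw [← sum_one_sub hF]
  refine (Fintype.sum_equiv (Equiv.mulLeft₀ b hb) _ _ fun t => ?_).symm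
  have e : (Equiv.mulLeft₀ b hb) t = b * t := rfl
  simp only [e]
  have : b - b * t = b * (1 - t) := by ring
  rw [this, map_mul, map_mul]
  have := chi_mul_self hb
  calc quadraticChar F t * quadraticChar F (1 - t) = (quadraticChar F b * quadraticChar F b) * (quadraticChar F t * quadraticChar F (1 - t)) := by rw [this]; ring
    _ = _ := by ring

/-- sums over a nondegenerate diagonal binary quadratic form -/
lemma sum_binary (hF : ringChar F ≠ 2) {a b : F} (ha : a ≠ 0) (hb : b ≠ 0) (G : F → ℤ) :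
    ∑ y : F, ∑ z : F, G (a * y ^ 2 + b * z ^ 2)
      = ((Fintype.card F : ℤ) - quadraticChar F (-(a * b))) * ∑ t : F, G t + (Fintype.card F : ℤ) * quadraticChar F (-(a * b)) * G 0 := by
  have h1 : ∀ y : F, ∑ z : F, G (a * y ^ 2 + b * z ^ 2)
      = ∑ w : F, (1 + quadraticChar F b * quadraticChar F w) * G (a * y ^ 2 + w) := fun y =>
    sum_ax2 hF hb (fun w => G (a * y ^ 2 + w))
  rw [Finset.sum_congr rfl fun y _ => h1 y, Finset.sum_comm]
  have h2 : ∀ w : F, ∑ y : F, (1 + quadraticChar F b * quadraticChar F w) * G (a * y ^ 2 + w)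
      = ∑ v : F, (1 + quadraticChar F a * quadraticChar F v) * ((1 + quadraticChar F b * quadraticChar F w) * G (v + w)) := fun w =>
    sum_ax2 hF ha (fun v => (1 + quadraticChar F b * quadraticChar F w) * G (v + w))
  rw [Finset.sum_congr rfl fun w _ => h2 w, Finset.sum_comm]
  -- substitute t = v + w
  have h3 : ∀ v : F, ∑ w : F, (1 + quadraticChar F a * quadraticChar F v) * ((1 + quadraticChar F b * quadraticChar F w) * G (v + w))
      = ∑ t : F, (1 + quadraticChar F a * quadraticChar F v) * ((1 + quadraticChar F b * quadraticChar F (t - v)) * G t) := by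
    intro v
    refine Fintype.sum_equiv (Equiv.addLeft v) _ _ fun w => ?_
    simp
  rw [Finset.sum_congr rfl fun v _ => h3 v, Finset.sum_comm]
  have h4 : ∀ t : F, ∑ v : F, (1 + quadraticChar F a * quadraticChar F v) * ((1 + quadraticChar F b * quadraticChar F (t - v)) * G t)
      = ((Fintype.card F : ℤ) - quadraticChar F (-(a * b))) * G t + (if t = 0 then (Fintype.card F : ℤ) * quadraticChar F (-(a*b)) * G t else 0) := by
    intro t
    have e1 : ∀ v : F, (1 + quadraticChar F a * quadraticChar F v) * ((1 + quadraticChar F b * quadraticChar F (t - v)) * G t)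
        = G t + quadraticChar F a * G t * quadraticChar F v + quadraticChar F b * G t * quadraticChar F (t - v)
          + quadraticChar F a * quadraticChar F b * G t * (quadraticChar F v * quadraticChar F (t - v)) := by intro v; ring
    rw [Finset.sum_congr rfl fun v _ => e1 v, Finset.sum_add_distrib, Finset.sum_add_distrib,
      Finset.sum_add_distrib, ← Finset.mul_sum, ← Finset.mul_sum, ← Finset.mul_sum,
      quadraticChar_sum_zero hF]
    have e2 : ∑ v : F, quadraticChar F (t - v) = 0 := by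
      rw [← quadraticChar_sum_zero hF]
      exact Fintype.sum_equiv (Equiv.subLeft t) _ _ fun v => by simp
    rw [e2]
    have e3 : quadraticChar F (-(a * b)) = quadraticChar F (-1) * quadraticChar F a * quadraticChar F b := by
      rw [show -(a * b) = (-1) * a * b by ring, map_mul, map_mul]
    by_cases h : t = 0
    · subst h
      rw [conv_zero hF, e3]
      simp; ring
    · rw [conv_ne hF h, e3]
      simp [h]; ring
  rw [Finset.sum_congr rfl fun t _ => h4 t, Finset.sum_add_distrib, ← Finset.mul_sum]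
  simp

lemma sum_shift (G : F → ℤ) (c : F) : ∑ t : F, G (t + c) = ∑ t : F, G t :=
  Fintype.sum_equiv (Equiv.addRight c) _ _ fun t => by simp

/-- zero count for quaternary forms, rank 4 -/
lemma zero4 (hF : ringChar F ≠ 2) {a b c d : F} (ha : a ≠ 0) (hb : b ≠ 0) (hc : c ≠ 0)
    (hd : d ≠ 0) :
    ∑ y : F, ∑ z : F, ∑ u : F, ∑ v : F,
      (if a * y ^ 2 + b * z ^ 2 + (c * u ^ 2 + d * v ^ 2) = 0 then (1 : ℤ) else 0)
      = (Fintype.card F : ℤ) ^ 3 + (Fintype.card F : ℤ) * ((Fintype.card F : ℤ) - 1) * quadraticChar F (a * b * c * d) := by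
  have h1 := sum_binary hF ha hb
    (fun t => ∑ u : F, ∑ v : F, (if t + (c * u ^ 2 + d * v ^ 2) = 0 then (1 : ℤ) else 0))
  rw [h1]
  have h2 : ∑ t : F, ∑ u : F, ∑ v : F, (if t + (c * u ^ 2 + d * v ^ 2) = 0 then (1 : ℤ) else 0)
      = (Fintype.card F : ℤ) ^ 2 := by
    rw [Finset.sum_comm]
    have : ∀ u : F, ∑ t : F, ∑ v : F, (if t + (c * u ^ 2 + d * v ^ 2) = 0 then (1 : ℤ) else 0)
        = (Fintype.card F : ℤ) := by
      intro u
      rw [Finset.sum_comm]
      have : ∀ v : F, ∑ t : F, (if t + (c * u ^ 2 + d * v ^ 2) = 0 then (1 : ℤ) else 0) = 1 := by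
        intro v
        rw [sum_shift (fun t => if t = 0 then (1 : ℤ) else 0)]
        simp
      rw [Finset.sum_congr rfl fun v _ => this v]; simp
    rw [Finset.sum_congr rfl fun v _ => this v]; simp; ring
  have h3 := sum_binary hF hc hd (fun t => if 0 + t = 0 then (1 : ℤ) else 0)
  rw [h2, h3]
  have h4 : quadraticChar F (a * b * c * d) = quadraticChar F (-(a * b)) * quadraticChar F (-(c * d)) := by
    rw [← map_mul]; congr 1; ring
  rw [h4]
  simp; ring

/-- zero count for quaternary forms, rank 3 -/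
lemma zero3 (hF : ringChar F ≠ 2) {a b c : F} (ha : a ≠ 0) (hb : b ≠ 0) (hc : c ≠ 0) :
    ∑ y : F, ∑ z : F, ∑ u : F, ∑ _v : F,
      (if a * y ^ 2 + b * z ^ 2 + c * u ^ 2 = 0 then (1 : ℤ) else 0)
      = (Fintype.card F : ℤ) ^ 3 := by
  have h1 := sum_binary hF ha hb
    (fun t => ∑ u : F, ∑ _v : F, (if t + c * u ^ 2 = 0 then (1 : ℤ) else 0))
  rw [h1]
  have h2 : ∑ t : F, ∑ u : F, ∑ _v : F, (if t + c * u ^ 2 = 0 then (1 : ℤ) else 0)
      = (Fintype.card F : ℤ) ^ 2 := by
    rw [Finset.sum_comm]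
    have : ∀ u : F, ∑ t : F, ∑ _v : F, (if t + c * u ^ 2 = 0 then (1 : ℤ) else 0)
        = (Fintype.card F : ℤ) := by
      intro u
      rw [Finset.sum_comm]
      have : ∀ v : F, ∑ t : F, (if t + c * u ^ 2 = 0 then (1 : ℤ) else 0) = 1 := by
        intro v
        rw [sum_shift (fun t => if t = 0 then (1 : ℤ) else 0)]
        simp
      rw [Finset.sum_congr rfl fun v _ => this v]; simp
    rw [Finset.sum_congr rfl fun v _ => this v]; simp; ring
  have h3 : ∑ u : F, ∑ _v : F, (if 0 + c * u ^ 2 = 0 then (1 : ℤ) else 0) = (Fintype.card F : ℤ) := by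
    rw [Finset.sum_comm]
    simp [hc]
  rw [h2, h3]
  ring

/-- character sum of quaternary forms of rank 4 -/
lemma chi4 (hF : ringChar F ≠ 2) {a b c d : F} (ha : a ≠ 0) (hb : b ≠ 0) (hc : c ≠ 0)
    (hd : d ≠ 0) :
    ∑ y : F, ∑ z : F, ∑ u : F, ∑ v : F, quadraticChar F (a * y ^ 2 + b * z ^ 2 + (c * u ^ 2 + d * v ^ 2))
      = 0 := by
  have h1 := sum_binary hF ha hb (fun t => ∑ u : F, ∑ v : F, quadraticChar F (t + (c * u ^ 2 + d * v ^ 2)))
  rw [h1]
  have h2 : ∑ t : F, ∑ u : F, ∑ v : F, quadraticChar F (t + (c * u ^ 2 + d * v ^ 2)) = 0 := by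
    rw [Finset.sum_comm]
    refine Finset.sum_eq_zero fun u _ => ?_
    rw [Finset.sum_comm]
    refine Finset.sum_eq_zero fun v _ => ?_
    rw [sum_shift (fun t => quadraticChar F t)]
    exact quadraticChar_sum_zero hF
  have h3 := sum_binary hF hc hd (fun t => quadraticChar F (0 + t))
  rw [h2, h3]
  simp only [zero_add, quadraticChar_sum_zero hF]
  simp

/-- character sum of quaternary forms of rank 3 -/
lemma chi3 (hF : ringChar F ≠ 2) {a b c : F} (ha : a ≠ 0) (hb : b ≠ 0) (hc : c ≠ 0) :
    ∑ y : F, ∑ z : F, ∑ u : F, ∑ _v : F, quadraticChar F (a * y ^ 2 + b * z ^ 2 + c * u ^ 2)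
      = (Fintype.card F : ℤ) ^ 2 * ((Fintype.card F : ℤ) - 1) * quadraticChar F (-(a * b * c)) := by
  have h1 := sum_binary hF ha hb (fun t => ∑ u : F, ∑ _v : F, quadraticChar F (t + c * u ^ 2))
  rw [h1]
  have h2 : ∑ t : F, ∑ u : F, ∑ _v : F, quadraticChar F (t + c * u ^ 2) = 0 := by
    rw [Finset.sum_comm]
    refine Finset.sum_eq_zero fun u _ => ?_
    rw [Finset.sum_comm]
    refine Finset.sum_eq_zero fun v _ => ?_
    rw [sum_shift (fun t => quadraticChar F t)]
    exact quadraticChar_sum_zero hF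
  have h3 : ∑ u : F, ∑ _v : F, quadraticChar F (0 + c * u ^ 2) = (Fintype.card F : ℤ) * (((Fintype.card F : ℤ) - 1) * quadraticChar F c) := by
    rw [Finset.sum_comm]
    have : ∑ u : F, quadraticChar F (0 + c * u ^ 2) = ((Fintype.card F : ℤ) - 1) * quadraticChar F c := by
      have e : ∀ u : F, quadraticChar F (0 + c * u ^ 2) = quadraticChar F c - (if u = 0 then quadraticChar F c else 0) := by
        intro u
        by_cases h : u = 0
        · simp [h]
        · rw [zero_add, map_mul, quadraticChar_sq_one' h]; simp [h]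
      rw [Finset.sum_congr rfl fun u _ => e u, Finset.sum_sub_distrib]
      simp; ring
    rw [this]; simp
  rw [h2, h3]
  have h4 : quadraticChar F (-(a * b * c)) = quadraticChar F (-(a * b)) * quadraticChar F c := by
    rw [← map_mul]; congr 1; ring
  rw [h4]; ring

end

end MP5d0678
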