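import Pool.Agent.MP5d0678.Gamma2

open Module

namespace MP5d0678

section
variable {F K : Type*} [Field F] [Field K] [Algebra F K] (σ : K ≃ₐ[F] K)

/-- the case of norm `-1`: no solutions -/
lemma nosol (h2 : (2 : K) ≠ 0) (h8 : ∀ x, σ (σ (σ (σ (σ (σ (σ (σ x))))))) = x) (t : K)
    (h : (σ t - t) * (σ (σ (σ (σ (σ t)))) - σ (σ (σ (σ t))))
      = -((σ (σ (σ (σ (σ t)))) - t) * (σ t - σ (σ (σ (σ t)))))) : σ t = t := by
  obtain ⟨u, hu⟩ : ∃ u, u = t + σ (σ (σ (σ t))) := ⟨_, rfl⟩
  obtain ⟨e, he⟩ : ∃ e, e = t - σ (σ (σ (σ t))) := ⟨_, rfl⟩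
  have hu4 : σ (σ (σ (σ u))) = u := by
    rw [hu]; simp only [map_add, h8]; ring
  have he4 : σ (σ (σ (σ e))) = -e := by
    rw [he]; simp only [map_sub, h8]; ring
  have R0 : (u - σ u) ^ 2 = e ^ 2 + (σ e) ^ 2 := by
    rw [hu, he]; simp only [map_add, map_sub]
    linear_combination 2 * h
  have R1 := congrArg σ R0
  simp only [map_add, map_sub, map_pow] at R1
  have R2 := congrArg σ R1
  simp only [map_add, map_sub, map_pow] at R2
  have R3 := congrArg σ R2
  simp only [map_add, map_sub, map_pow, hu4, he4] at R3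
  have hprod : (2 : K) * ((u - σ (σ u)) * (σ u - σ (σ (σ u)))) = 0 := by
    linear_combination -R0 + R1 - R2 + R3
  have hu2 : σ (σ u) = u := by
    rcases mul_eq_zero.1 hprod with h | h
    · exact absurd h h2
    · rcases mul_eq_zero.1 h with h | h
      · exact (sub_eq_zero.1 h).symm
      · have : σ u = σ (σ (σ u)) := sub_eq_zero.1 h
        exact (σ.injective this).symm
  rw [hu2] at R1
  have hee : (σ (σ e)) ^ 2 = e ^ 2 := by linear_combination R0 - R1
  have he0 : e = 0 := by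
    have : (2 : K) * e = 0 := by
      rcases sq_eq_sq_iff_eq_or_eq_neg.1 hee with h | h
      · rw [h, h] at he4; linear_combination he4
      · rw [h, map_neg, map_neg, h] at he4; linear_combination he4
    rcases mul_eq_zero.1 this with h | h
    · exact absurd h h2
    · exact h
  rw [he0, map_zero] at R0
  have hu1 : u = σ u := by
    have : (u - σ u) ^ 2 = 0 := by rw [R0]; ring
    exact sub_eq_zero.1 (pow_eq_zero_iff (by norm_num) |>.1 this)
  have ht4 : t = σ (σ (σ (σ t))) := by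
    rw [he0] at he; exact (sub_eq_zero.1 he.symm)
  have hut : u = 2 * t := by rw [hu, ← ht4]; ring
  rw [hut, map_mul, map_ofNat] at hu1
  have : (2 : K) * (σ t - t) = 0 := by linear_combination -hu1
  rcases mul_eq_zero.1 this with h | h
  · exact absurd h h2
  · exact sub_eq_zero.1 h

end

section
variable {F K : Type*} [Field F] [Field K] [Algebra F K]
variable [Fintype F] [DecidableEq F] [Finite K]
  [FiniteDimensional F K] (σ : K ≃ₐ[F] K) (hσ : orderOf σ = 8)
  (hK : finrank F K = 8) (h2 : (2 : K) ≠ 0) (hF : ringChar F ≠ 2) (hG : IsGalois F K)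

include hσ hK h2 hF hG

/-- existence of `t` -/
lemma exists_t (D : K) (hD4 : σ (σ (σ (σ D))) = D) (hD0 : D ≠ 0) (hD1 : D ≠ -1) :
    ∃ t : K, σ t ≠ t ∧ (σ t - t) * (σ (σ (σ (σ (σ t)))) - σ (σ (σ (σ t))))
      = D * ((σ (σ (σ (σ (σ t)))) - t) * (σ t - σ (σ (σ (σ t))))) := by
  by_cases hD : D = 1
  · obtain ⟨i, hi0, hi⟩ := exists_neg1 σ hσ
    refine ⟨i, ?_, ?_⟩
    · rw [hi]; intro h
      have : 2 * i = 0 := by linear_combination -h
      rcases mul_eq_zero.1 this with h | h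
      · exact h2 h
      · exact hi0 h
    · rw [hD]; simp only [hi, map_neg, neg_neg]; ring
  · have h1D : 1 - D ≠ 0 := sub_ne_zero.2 (Ne.symm hD)
    obtain ⟨h, h', hh0, hh4, hh4', hrel⟩ := core σ hσ hK h2 hF hG ((1 + D) / (1 - D))
      (by simp only [map_div₀, map_add, map_sub, map_one, hD4])
      (by
        apply div_ne_zero _ h1D
        intro h; apply hD1; linear_combination h)
      (by
        intro h
        rw [div_pow, div_eq_one_iff_eq (pow_ne_zero _ h1D)] at h
        have : (2 * 2 : K) * D = 0 := by linear_combination h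
        rcases mul_eq_zero.1 this with h | h
        · exact mul_ne_zero h2 h2 h
        · exact hD0 h)
    have hs0 : σ h ≠ 0 := by simpa using hh0
    have ht4 : σ (σ (σ (σ ((h' + 1) / h)))) = (h' - 1) / h := by
      simp only [map_div₀, map_add, map_one, hh4, hh4']
      field_simp; ring
    have ht5 : σ (σ (σ (σ (σ ((h' + 1) / h))))) = (σ h' - 1) / σ h := by
      rw [ht4, map_div₀, map_sub, map_one]
    refine ⟨(h' + 1) / h, ?_, ?_⟩
    · intro heq
      rw [heq, heq, heq, heq] at ht4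
      have : (2 : K) = 0 := by
        field_simp at ht4
        linear_combination ht4
      exact h2 this
    · rw [ht5, ht4, map_div₀, map_add, map_one]
      set g := σ h
      set g' := σ h'
      have hrel' : (1 - D) * (h * g' - h' * g) ^ 2
          = (1 - D) * (h ^ 2 + g ^ 2) - 2 * (1 + D) * (h * g) := by
        rw [hrel]; field_simp
      field_simp
      linear_combination (1 : K) * hrel'

/-- from `t` to a two-dimensional kernel -/
lemma exists_x (δ t : K) (hδ : δ ≠ 0) (ht : σ t ≠ t)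
    (hrel : (σ t - t) * (σ (σ (σ (σ (σ t)))) - σ (σ (σ (σ t))))
      = (δ * σ (σ (σ (σ δ)))) * ((σ (σ (σ (σ (σ t)))) - t) * (σ t - σ (σ (σ (σ t)))))) :
    ∃ x : K, x ≠ 0 ∧ σ (t * x) + δ * σ (σ (σ (σ (σ (t * x)))))
      = t * (σ x + δ * σ (σ (σ (σ (σ x))))) := by
  have h8 := pow8 σ hσ
  have ht5 : σ (σ (σ (σ (σ t)))) - t ≠ 0 := by
    intro h
    have h5 : σ (σ (σ (σ (σ t)))) = t := sub_eq_zero.1 h
    apply ht
    have e1 : σ (σ (σ (σ (σ (σ (σ (σ (σ (σ t))))))))) = t := by
      rw [h5, h5]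
    rw [h8] at e1
    -- e1 : σ (σ t) = t
    have e2 : σ (σ (σ (σ t))) = t := by rw [e1, e1]
    rw [e2] at h5
    exact h5
  have hst : σ t - t ≠ 0 := sub_ne_zero.2 ht
  obtain ⟨G, hG'⟩ : ∃ G, G = -(σ t - t) / (δ * (σ (σ (σ (σ (σ t)))) - t)) := ⟨_, rfl⟩
  have hG0 : G ≠ 0 := by
    rw [hG']; exact div_ne_zero (neg_ne_zero.2 hst) (mul_ne_zero hδ ht5)
  have hδ4 : σ (σ (σ (σ δ))) ≠ 0 := by simpa using hδ
  have hst4 : σ t - σ (σ (σ (σ t))) ≠ 0 := by
    intro h
    apply ht5
    have := congrArg (fun y => σ (σ (σ (σ y)))) h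
    simp only [map_sub, map_zero, h8] at this
    exact this
  have hGN : G * σ (σ (σ (σ G))) = 1 := by
    rw [hG']
    simp only [map_div₀, map_neg, map_sub, map_mul, h8]
    rw [div_mul_div_comm, div_eq_one_iff_eq
      (mul_ne_zero (mul_ne_zero hδ ht5) (mul_ne_zero hδ4 hst4))]
    linear_combination hrel
  have hGi : σ (σ (σ (σ G⁻¹))) = G := by
    simp only [map_inv₀]
    exact inv_eq_of_mul_eq_one_left hGN
  obtain ⟨y, hy0, hy⟩ : ∃ y : K, y ≠ 0 ∧ σ (σ (σ (σ y))) = G * y := by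
    by_cases hG1 : G = -1
    · obtain ⟨w, hw0, hw⟩ := exists_neg4 σ hσ
      exact ⟨w, hw0, by rw [hw, hG1]; ring⟩
    · refine ⟨1 + G⁻¹, ?_, ?_⟩
      · intro h
        apply hG1
        have : G * (1 + G⁻¹) = 0 := by rw [h, mul_zero]
        rw [mul_add, mul_inv_cancel₀ hG0, mul_one] at this
        linear_combination this
      · simp only [map_add, map_one, hGi]
        rw [mul_add, mul_inv_cancel₀ hG0]; ring
  obtain ⟨Z, hZ⟩ : ∃ Z, Z = σ (σ (σ (σ (σ (σ (σ y)))))) := ⟨_, rfl⟩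
  have e1 : σ Z = y := by rw [hZ]; exact h8 y
  refine ⟨Z, ?_, ?_⟩
  · intro h; rw [h, map_zero] at e1; exact hy0 e1.symm
  simp only [map_mul, e1, hy]
  have e2 : G * (δ * (σ (σ (σ (σ (σ t)))) - t)) = -(σ t - t) := by
    rw [hG']; exact div_mul_cancel₀ _ (mul_ne_zero hδ ht5)
  linear_combination y * e2

/-- elements fixed by `σ` are scalars; a proportionality criterion -/
lemma scalar_of_fixed {x y : K} (hx : x ≠ 0) (h : σ (y / x) = y / x) : ∃ a : F, y = a • x := by
  obtain ⟨a, ha⟩ := exists_pre σ hσ hK h2 hG h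
  refine ⟨a, ?_⟩
  rw [Algebra.smul_def, ha]; field_simp

end

end MP5d0678
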