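import Pool.Agent.MP5d0678.Alpha3

open Finset Module Polynomial

namespace MP5d0678

/-- final construction from three vectors -/
lemma fin_step {F K : Type*} [Field F] [Fintype F] [DecidableEq F] [Field K] [Algebra F K]
    (hF : ringChar F ≠ 2)
    (σ : K ≃ₐ[F] K) (c : K) (A0 A1 A2 s : F) (U0 U1 U2 : K) (hA0 : A0 ≠ 0) (hA1 : A1 ≠ 0)
    (hA2 : A2 ≠ 0) (hs : s ^ 2 = -(A0 * A1 * A2))
    (hU0 : σ (σ (σ (σ U0))) = -U0) (hU1 : σ (σ (σ (σ U1))) = -U1) (hU2 : σ (σ (σ (σ U2))) = -U2)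
    (h1 : algebraMap F K A0 * U0 ^ 2 + algebraMap F K A1 * U1 ^ 2 + algebraMap F K A2 * U2 ^ 2 = 1)
    (hc : algebraMap F K A0 * (U0 * σ U0) + algebraMap F K A1 * (U1 * σ U1)
      + algebraMap F K A2 * (U2 * σ U2) = c)
    (hind : ∀ m0 m1 m2 : F, algebraMap F K m0 * U0 + algebraMap F K m1 * U1
      + algebraMap F K m2 * U2 = 0 → m0 = 0 ∧ m1 = 0) :
    ∃ h h' : K, h ≠ 0 ∧ σ (σ (σ (σ h))) = -h ∧ σ (σ (σ (σ h'))) = -h' ∧
      (h * σ h' - h' * σ h) ^ 2 = h ^ 2 + (σ h) ^ 2 - 2 * c * (h * σ h) := by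
  obtain ⟨y, z, hyz⟩ : ∃ y z : F, A0 * y ^ 2 + A1 * z ^ 2 + A2 = 0 := by
    have := FiniteField.exists_root_sum_quadratic (f := (C A0 * X ^ 2 : F[X]))
      (g := (C A1 * X ^ 2 + C A2 : F[X])) (by compute_degree!) (by compute_degree!)
      (FiniteField.odd_card_of_char_ne_two hF)
    obtain ⟨y, z, h⟩ := this
    refine ⟨y, z, ?_⟩
    simp at h
    linear_combination h
  have h1σ := congrArg σ h1
  simp only [map_add, map_mul, map_pow, map_one, σ.commutes] at h1σ
  have hsK : (algebraMap F K s) ^ 2 = -(algebraMap F K A0 * algebraMap F K A1 *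
      algebraMap F K A2) := by
    rw [← map_pow, hs]; simp
  have hyzK : algebraMap F K A0 * (algebraMap F K y) ^ 2 + algebraMap F K A1 *
      (algebraMap F K z) ^ 2 + algebraMap F K A2 = 0 := by
    rw [← map_pow, ← map_pow, ← map_mul, ← map_mul, ← map_add, ← map_add, hyz, map_zero]
  have hA2K : algebraMap F K A2 ≠ 0 := by rwa [Ne, map_eq_zero]
  refine ⟨algebraMap F K (y * A0) * U0 + algebraMap F K (z * A1) * U1 + algebraMap F K A2 * U2,
    algebraMap F K (s / A2) * (algebraMap F K z * U0 - algebraMap F K y * U1), ?_, ?_, ?_, ?_⟩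
  · intro h0
    obtain ⟨e1, e2⟩ := hind _ _ _ h0
    have hy : y = 0 := by
      rcases mul_eq_zero.1 e1 with h | h
      · exact h
      · exact absurd h hA0
    have hz : z = 0 := by
      rcases mul_eq_zero.1 e2 with h | h
      · exact h
      · exact absurd h hA1
    rw [hy, hz] at hyz
    apply hA2
    linear_combination hyz
  · simp only [map_add, map_mul, σ.commutes, hU0, hU1, hU2]; ring
  · simp only [map_sub, map_mul, σ.commutes, hU0, hU1]; ring
  · simp only [map_add, map_sub, map_mul, σ.commutes, map_div₀]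
    set a := algebraMap F K A0
    set b := algebraMap F K A1
    set d := algebraMap F K A2
    set Y := algebraMap F K y
    set Z := algebraMap F K z
    set S := algebraMap F K s
    set P0 := σ U0
    set P1 := σ U1
    set P2 := σ U2
    obtain ⟨H, hH⟩ : ∃ H, H = Y * a * U0 + Z * b * U1 + d * U2 := ⟨_, rfl⟩
    obtain ⟨H1, hH1⟩ : ∃ H1, H1 = Y * a * P0 + Z * b * P1 + d * P2 := ⟨_, rfl⟩
    rw [← hH, ← hH1]
    obtain ⟨K0, hK0⟩ : ∃ K0, K0 = H * P0 - H1 * U0 := ⟨_, rfl⟩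
    obtain ⟨K1, hK1⟩ : ∃ K1, K1 = H * P1 - H1 * U1 := ⟨_, rfl⟩
    obtain ⟨K2, hK2⟩ : ∃ K2, K2 = H * P2 - H1 * U2 := ⟨_, rfl⟩
    have hrel : Y * a * K0 + Z * b * K1 + d * K2 = 0 := by
      rw [hK0, hK1, hK2]
      linear_combination (-H) * hH1 + H1 * hH
    have hR : H ^ 2 + H1 ^ 2 - 2 * c * (H * H1) = a * K0 ^ 2 + b * K1 ^ 2 + d * K2 ^ 2 := by
      rw [hK0, hK1, hK2]
      linear_combination (-H ^ 2) * h1σ - H1 ^ 2 * h1 + 2 * H * H1 * hc
    rw [hR]
    have hL : (H * (S / d * (Z * P0 - Y * P1)) - S / d * (Z * U0 - Y * U1) * H1)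
        = S / d * (Z * K0 - Y * K1) := by
      rw [hK0, hK1]; ring
    rw [hL]
    have hK2' : K2 = -(Y * a * K0 + Z * b * K1) / d := by
      rw [eq_div_iff hA2K]; linear_combination hrel
    rw [hK2', mul_pow, div_pow, hsK]
    have hd : d = -(a * Y ^ 2 + b * Z ^ 2) := by linear_combination hyzK
    field_simp
    rw [hd]; ring

variable {F K : Type*} [Field F] [Field K] [Algebra F K]

/-- the Gram matrix in conjugate coordinates -/
def Mmat (c0 c1 c2 c3 x x1 : K) : Matrix (Fin 4) (Fin 4) K :=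
  !![1, c0, x, -c3; c0, 1, c1, x1; x, c1, 1, c2; -c3, x1, c2, 1]

lemma Mmat_det (c0 c1 c2 c3 x x1 : K) : (Mmat c0 c1 c2 c3 x x1).det =
    (1 - (c0 ^ 2 + c1 ^ 2 + c2 ^ 2 + c3 ^ 2) + (c0 * c2 + c1 * c3) ^ 2) - x ^ 2 - x1 ^ 2
      + x ^ 2 * x1 ^ 2 + 2 * (c0 * c1 - c2 * c3) * x + 2 * (c1 * c2 - c3 * c0) * x1
      - 2 * (c0 * c2 - c1 * c3) * (x * x1) := by
  unfold Mmat
  simp [Matrix.det_succ_row_zero, Fin.sum_univ_succ, Fin.succAbove]
  ring

/-- conjugate coordinates of four vectors of `V` -/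
def Cmat (σ : K ≃ₐ[F] K) (b : Fin 4 → K) : Matrix (Fin 4) (Fin 4) K :=
  Matrix.of fun r j => ![b j, σ (b j), σ (σ (b j)), σ (σ (σ (b j)))] r

/-- the `K`-valued form on `V` -/
def Gform (σ : K ≃ₐ[F] K) (c x : K) (y z : K) : K :=
  2 * (y * z) + 2 * c * (y * σ z + z * σ y) + x * (y * σ (σ z) + z * σ (σ y))

/-- the `F`-valued bilinear form on `V` -/
noncomputable def Gbil (σ : K ≃ₐ[F] K) (c x : K) : LinearMap.BilinForm F (Neg (σ ^ 4)) :=
  LinearMap.mk₂ F (fun y z => Algebra.trace F K (Gform σ c x (y : K) (z : K)))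
    (by
      intro a b d; rw [← map_add]; congr 1; unfold Gform
      simp only [Submodule.coe_add, map_add]; ring)
    (by
      intro t a b; rw [← map_smul]; congr 1; unfold Gform
      simp only [Submodule.coe_smul, Algebra.smul_def, map_mul, σ.commutes]; ring)
    (by
      intro a b d; rw [← map_add]; congr 1; unfold Gform
      simp only [Submodule.coe_add, map_add]; ring)
    (by
      intro t a b; rw [← map_smul]; congr 1; unfold Gform
      simp only [Submodule.coe_smul, Algebra.smul_def, map_mul, σ.commutes]; ring)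

lemma Gbil_apply (σ : K ≃ₐ[F] K) (c x : K) (y z : Neg (σ ^ 4)) :
    Gbil σ c x y z = Algebra.trace F K (Gform σ c x (y : K) (z : K)) := rfl

section
variable [Fintype F] [DecidableEq F] [Finite K]
  [FiniteDimensional F K] (σ : K ≃ₐ[F] K) (hσ : orderOf σ = 8)
  (hK : finrank F K = 8) (h2 : (2 : K) ≠ 0) (hF : ringChar F ≠ 2) (hG : IsGalois F K)

include hσ hK h2 hG in
omit [Fintype F] [DecidableEq F] [Finite K] in
lemma G_trace {c c1 c2 c3 x x1 : K} (h01 : σ c = c1) (h12 : σ c1 = c2)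
    (h23 : σ c2 = c3) (h30 : σ c3 = c) (hx1 : σ x = x1) (hx : σ x1 = -x)
    (b : Fin 4 → Neg (σ ^ 4)) (p q : Fin 4) :
    4 * ((Cmat σ (fun j => (b j : K))).transpose * Mmat c c1 c2 c3 x x1 *
      Cmat σ (fun j => (b j : K))) p q = algebraMap F K (Gbil σ c x (b p) (b q)) := by
  have e : ∀ j, σ (σ (σ (σ (b j : K)))) = -(b j : K) := by
    intro j
    rw [← four_app]; exact (b j).2
  rw [Gbil_apply, trace_eq σ hσ hK h2 hG]
  simp only [Matrix.mul_apply, Fin.sum_univ_four, Matrix.transpose_apply, Cmat, Mmat, Gform,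
    Matrix.of_apply]
  simp only [map_add, map_mul, map_neg, map_ofNat, h01, h12, h23, h30, hx1, hx, e]
  simp
  ring

end

end MP5d0678
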