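import Pool.Agent.MP5d0678.Gamma

open Finset Module Polynomial

namespace MP5d0678

variable {F K : Type*} [Field F] [Field K] [Algebra F K]
variable [Fintype F] [DecidableEq F] [Finite K]
  [FiniteDimensional F K] (σ : K ≃ₐ[F] K) (hσ : orderOf σ = 8)
  (hK : finrank F K = 8) (h2 : (2 : K) ≠ 0) (hF : ringChar F ≠ 2) (hG : IsGalois F K)

include hσ in
omit [Fintype F] [DecidableEq F] [Finite K] in
lemma Cdet_ne (b : Module.Basis (Fin 4) F (Neg (σ ^ 4))) :
    (Cmat σ (fun j => (b j : K))).det ≠ 0 := by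
  intro h0
  obtain ⟨v, hv0, hv⟩ := Matrix.exists_vecMul_eq_zero_iff.2 h0
  apply hv0
  have hb : ∀ j, v 0 * (b j : K) + v 1 * σ (b j) + v 2 * σ (σ (b j)) + v 3 * σ (σ (σ (b j))) = 0 := by
    intro j
    have := congrFun hv j
    simpa [Matrix.vecMul, dotProduct, Fin.sum_univ_four, Cmat] using this
  have hz : ∀ z : K, σ (σ (σ (σ z))) = -z →
      v 0 * z + v 1 * σ z + v 2 * σ (σ z) + v 3 * σ (σ (σ z)) = 0 := by
    intro z hz
    have hmem : z ∈ Neg (σ ^ 4) := by rw [mem_Neg, four_app, hz]
    have hrep := b.sum_repr ⟨z, hmem⟩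
    have hrep' : z = ∑ j, algebraMap F K (b.repr ⟨z, hmem⟩ j) * (b j : K) := by
      have := congrArg (Subtype.val) hrep
      simp only [Submodule.coe_sum, Submodule.coe_smul, Algebra.smul_def] at this
      exact this.symm
    generalize b.repr ⟨z, hmem⟩ = t at hrep'
    rw [Fin.sum_univ_four] at hrep'
    rw [hrep']
    simp only [map_add, map_mul, σ.commutes]
    linear_combination (algebraMap F K (t 0)) * hb 0 + (algebraMap F K (t 1)) * hb 1
      + (algebraMap F K (t 2)) * hb 2 + (algebraMap F K (t 3)) * hb 3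
  obtain ⟨e0, e1, e2, e3⟩ := ind4 σ hσ _ _ _ _ hz
  ext i; fin_cases i <;> simpa

include hσ hK h2 hG in
omit [Fintype F] [DecidableEq F] [Finite K] in
/-- Parseval type identities: the dual basis. -/
lemma dual_basis {c c1 c2 c3 x x1 : K} (h01 : σ c = c1) (h12 : σ c1 = c2)
    (h23 : σ c2 = c3) (h30 : σ c3 = c) (hx1 : σ x = x1) (hx : σ x1 = -x)
    (b : Module.Basis (Fin 4) F (Neg (σ ^ 4)))
    (hb : ∀ i j, i ≠ j → Gbil σ c x (b i) (b j) = 0) :
    ∃ U : Fin 4 → K, (∀ j, σ (σ (σ (σ (U j)))) = - U j) ∧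
      (∑ j, algebraMap F K (Gbil σ c x (b j) (b j)) * U j ^ 2 = 4) ∧
      (∑ j, algebraMap F K (Gbil σ c x (b j) (b j)) * (U j * σ (U j)) = 4 * c) ∧
      (∀ m : Fin 4 → F, ∑ j, algebraMap F K (m j) * U j = 0 → m = 0) := by
  set T := Cmat σ (fun j => (b j : K)) with hT
  have hdet : IsUnit T.det := isUnit_iff_ne_zero.2 (Cdet_ne σ hσ b)
  set U := T⁻¹ with hU
  have hTU : T * U = 1 := Matrix.mul_nonsing_inv _ hdet
  have hUT : U * T = 1 := Matrix.nonsing_inv_mul _ hdet
  have e : ∀ j, σ (σ (σ (σ (b j : K)))) = -(b j : K) := by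
    intro j
    rw [← four_app]; exact (b j).2
  -- the rows of U
  have hrow : Matrix.of (fun j i => ![-σ (U j 3), σ (U j 0), σ (U j 1), σ (U j 2)] i) = U := by
    have h1 : Matrix.of (fun j i => ![-σ (U j 3), σ (U j 0), σ (U j 1), σ (U j 2)] i) * T = 1 := by
      ext j k
      have h2 : σ ((U * T) j k) = (1 : Matrix (Fin 4) (Fin 4) K) j k := by
        rw [hUT]
        by_cases hjk : j = k
        · subst hjk; simp
        · simp [Matrix.one_apply_ne hjk]
      rw [← h2]
      simp only [Matrix.mul_apply, Fin.sum_univ_four, Matrix.of_apply, hT, Cmat]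
      simp [e]
      ring
    calc Matrix.of (fun j i => ![-σ (U j 3), σ (U j 0), σ (U j 1), σ (U j 2)] i)
        = Matrix.of (fun j i => ![-σ (U j 3), σ (U j 0), σ (U j 1), σ (U j 2)] i) * (T * U) := by
          rw [hTU, mul_one]
      _ = U := by rw [← mul_assoc, h1, one_mul]
  have r0 : ∀ j, -σ (U j 3) = U j 0 := fun j => by
    have := congrFun (congrFun hrow j) 0; simpa using this
  have r1 : ∀ j, σ (U j 0) = U j 1 := fun j => by
    have := congrFun (congrFun hrow j) 1; simpa using this
  have r2 : ∀ j, σ (U j 1) = U j 2 := fun j => by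
    have := congrFun (congrFun hrow j) 2; simpa using this
  have r3 : ∀ j, σ (U j 2) = U j 3 := fun j => by
    have := congrFun (congrFun hrow j) 3; simpa using this
  have hM : (4 : K) • Mmat c c1 c2 c3 x x1 = U.transpose *
      Matrix.diagonal (fun j => algebraMap F K (Gbil σ c x (b j) (b j))) * U := by
    have h1 : (4 : K) • (T.transpose * Mmat c c1 c2 c3 x x1 * T) =
        Matrix.diagonal (fun j => algebraMap F K (Gbil σ c x (b j) (b j))) := by
      ext p q
      rw [Matrix.smul_apply, smul_eq_mul, hT,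
        G_trace σ hσ hK h2 hG h01 h12 h23 h30 hx1 hx (fun j => b j) p q]
      by_cases hpq : p = q
      · subst hpq; simp
      · rw [Matrix.diagonal_apply_ne _ hpq, hb p q hpq, map_zero]
    rw [← h1]
    have h3 : U.transpose * T.transpose = 1 := by
      rw [← Matrix.transpose_mul, hTU, Matrix.transpose_one]
    calc (4 : K) • Mmat c c1 c2 c3 x x1 = (4 : K) • ((U.transpose * T.transpose) *
          Mmat c c1 c2 c3 x x1 * (T * U)) := by rw [h3, hTU, one_mul, mul_one]
      _ = _ := by
        simp only [Matrix.mul_assoc, Matrix.mul_smul, Matrix.smul_mul]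
  refine ⟨fun j => U j 0, ?_, ?_, ?_, ?_⟩
  · intro j
    simp only
    rw [r1, r2, r3, ← r0, neg_neg]
  · have := congrFun (congrFun hM 0) 0
    simp only [Matrix.smul_apply, Matrix.mul_apply, Matrix.transpose_apply,
      Matrix.diagonal_apply, Mmat] at this
    simp [Fin.sum_univ_four] at this
    rw [Fin.sum_univ_four]
    linear_combination -this
  · have := congrFun (congrFun hM 0) 1
    simp only [Matrix.smul_apply, Matrix.mul_apply, Matrix.transpose_apply,
      Matrix.diagonal_apply, Mmat] at this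
    simp [Fin.sum_univ_four] at this
    rw [Fin.sum_univ_four]
    simp only [r1]
    linear_combination -this
  · intro m hm
    rw [Fin.sum_univ_four] at hm
    have k1 := congrArg σ hm
    simp only [map_add, map_mul, σ.commutes, map_zero, r1] at k1
    have k2 := congrArg σ k1
    simp only [map_add, map_mul, σ.commutes, map_zero, r2] at k2
    have k3 := congrArg σ k2
    simp only [map_add, map_mul, σ.commutes, map_zero, r3] at k3
    have h5 : Matrix.vecMul (fun j => algebraMap F K (m j)) U = 0 := by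
      ext i
      fin_cases i <;> simp [Matrix.vecMul, dotProduct, Fin.sum_univ_four] <;> assumption
    have h6 : (fun j => algebraMap F K (m j)) = 0 := by
      have := congrArg (fun v => Matrix.vecMul v T) h5
      simp only [Matrix.vecMul_vecMul, hUT, Matrix.vecMul_one, Matrix.zero_vecMul] at this
      exact this
    ext j
    have := congrFun h6 j
    simpa using this

/-- the goal -/
def Goal (σ : K ≃ₐ[F] K) (c : K) : Prop :=
  ∃ h h' : K, h ≠ 0 ∧ σ (σ (σ (σ h))) = -h ∧ σ (σ (σ (σ h'))) = -h' ∧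
      (h * σ h' - h' * σ h) ^ 2 = h ^ 2 + (σ h) ^ 2 - 2 * c * (h * σ h)

include hσ hK h2 hF hG

lemma x_sum [Fintype (Neg (σ ^ 2))] (e : F) (y : K) (hy0 : y ≠ 0) (hy : σ (σ y) = -y) :
    ∑ x : Neg (σ ^ 2), quadraticChar F (e + 2 * Algebra.trace F K ((x : K) * y)) = 0 := by
  have hmem : y⁻¹ ∈ Neg (σ ^ 2) := by
    rw [mem_Neg, sq_app, map_inv₀, map_inv₀, hy, inv_neg]
  have h2F : (2 : F) ≠ 0 := Ring.two_ne_zero hF
  have htr : Algebra.trace F K (y⁻¹ * y) = 8 := by
    rw [inv_mul_cancel₀ hy0]
    apply (algebraMap F K).injective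
    rw [trace_fixed σ hσ hK h2 hG (map_one σ), map_ofNat]; ring
  have hshift : ∀ t : F, ∑ x : Neg (σ ^ 2), quadraticChar F (e + 2 * Algebra.trace F K ((x : K) * y))
      = ∑ x : Neg (σ ^ 2), quadraticChar F (t + (e + 2 * Algebra.trace F K ((x : K) * y))) := by
    intro t
    refine (Fintype.sum_equiv (Equiv.addRight ((t / 16) • (⟨y⁻¹, hmem⟩ : Neg (σ ^ 2)))) _ _
      fun x => ?_).symm
    congr 1
    have h16 : (16 : F) ≠ 0 := by
      have : (16 : F) = 2 * 2 * 2 * 2 := by norm_num
      rw [this]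
      exact mul_ne_zero (mul_ne_zero (mul_ne_zero h2F h2F) h2F) h2F
    have : ((Equiv.addRight ((t / 16) • (⟨y⁻¹, hmem⟩ : Neg (σ ^ 2))) x : Neg (σ ^ 2)) : K) * y
        = (x : K) * y + (t / 16) • (y⁻¹ * y) := by
      simp only [Equiv.coe_addRight, Submodule.coe_add, Submodule.coe_smul, Algebra.smul_def]
      ring
    rw [this, map_add, map_smul, htr, smul_eq_mul]
    field_simp
    ring
  have hsum : (Fintype.card F : ℤ) * ∑ x : Neg (σ ^ 2),
      quadraticChar F (e + 2 * Algebra.trace F K ((x : K) * y)) = 0 := by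
    have h1 : (Fintype.card F : ℤ) * ∑ x : Neg (σ ^ 2),
      quadraticChar F (e + 2 * Algebra.trace F K ((x : K) * y)) = ∑ t : F, ∑ x : Neg (σ ^ 2),
        quadraticChar F (t + (e + 2 * Algebra.trace F K ((x : K) * y))) := by
      rw [← Finset.sum_congr rfl fun t _ => hshift t]
      simp
    rw [h1, Finset.sum_comm]
    refine Finset.sum_eq_zero fun x _ => ?_
    rw [sum_shift (fun t => quadraticChar F t)]
    exact quadraticChar_sum_zero hF
  rcases mul_eq_zero.1 hsum with h | h
  · exact absurd h (by exact_mod_cast Fintype.card_ne_zero)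
  · exact h

theorem core (c : K) (hc4 : σ (σ (σ (σ c))) = c) (hc0 : c ≠ 0) (hc1 : c ^ 2 ≠ 1) : Goal σ c := by
  classical
  by_contra hcon
  have h2F : (2 : F) ≠ 0 := Ring.two_ne_zero hF
  have h4F : (4 : F) ≠ 0 := by
    have : (4 : F) = 2 * 2 := by norm_num
    rw [this]; exact mul_ne_zero h2F h2F
  have h4K : (4 : K) ≠ 0 := by
    have : (4 : K) = 2 * 2 := by norm_num
    rw [this]; exact mul_ne_zero h2 h2
  haveI : Fintype (Neg (σ ^ 2)) := Fintype.ofFinite _
  haveI : Fintype (Neg (σ ^ 4)) := Fintype.ofFinite _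
  have hq : (1 : ℤ) < (Fintype.card F : ℤ) := by exact_mod_cast Fintype.one_lt_card
  -- analysis of each member
  have hmem : ∀ x : Neg (σ ^ 2),
      (∑ z : Neg (σ ^ 4), quadraticChar F (Gbil σ c (x : K) z z)) ≤ 0 ∧
      ((Mmat c (σ c) (σ (σ c)) (σ (σ (σ c))) (x : K) (σ x)).det = 0 →
        (∑ z : Neg (σ ^ 4), quadraticChar F (Gbil σ c (x : K) z z)) < 0) := by
    intro x
    have hxx : σ (σ (x : K)) = -(x : K) := by rw [← sq_app]; exact x.2
    have hsymm : ∀ y z, Gbil σ c (x : K) y z = Gbil σ c (x : K) z y := by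
      intro y z; rw [Gbil_apply, Gbil_apply]; congr 1; unfold Gform; ring
    obtain ⟨b, hb, hcase⟩ := ortho_cases hF (dimV σ hσ hK h2) (Gbil σ c (x : K)) hsymm
    have hsum := sum_basis (Gbil σ c (x : K)) b hb (fun t => quadraticChar F t)
    obtain ⟨U, hU4, hU1, hUc, hUi⟩ := dual_basis σ hσ hK h2 hG rfl rfl rfl hc4 rfl hxx b hb
    rw [Fin.sum_univ_four] at hU1 hUc
    set a := fun j => Gbil σ c (x : K) (b j) (b j) with ha
    have haj : ∀ j, Gbil σ c (x : K) (b j) (b j) = a j := fun j => rfl
    simp only [haj] at hU1 hUc hsum hcase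
    rcases hcase with h | ⟨h3, h0, h1, h2'⟩ | ⟨h3, h2'⟩
    · have hz : ∑ z : Neg (σ ^ 4), quadraticChar F (Gbil σ c (x : K) z z) = 0 := by
        rw [hsum]; exact chi4 hF (h 0) (h 1) (h 2) (h 3)
      refine ⟨hz.le, fun hdet => ?_⟩
      exfalso
      have h5 : ((Cmat σ (fun j => (b j : K))).transpose *
          Mmat c (σ c) (σ (σ c)) (σ (σ (σ c))) (x : K) (σ x) *
          Cmat σ (fun j => (b j : K))) = Matrix.diagonal (fun j => algebraMap F K (a j) / 4) := by
        ext p q
        have h6 := G_trace σ hσ hK h2 hG rfl rfl rfl hc4 rfl hxx (fun j => b j) p q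
        by_cases hpq : p = q
        · subst hpq
          rw [Matrix.diagonal_apply_eq, eq_div_iff h4K, mul_comm, h6]
        · rw [Matrix.diagonal_apply_ne _ hpq]
          rw [hb p q hpq, map_zero] at h6
          rcases mul_eq_zero.1 h6 with h | h
          · exact absurd h h4K
          · exact h
      have h7 := congrArg Matrix.det h5
      rw [Matrix.det_mul, Matrix.det_mul, hdet, Matrix.det_diagonal, mul_zero, zero_mul] at h7
      have h8 := Finset.prod_ne_zero_iff.2 (fun j (_ : j ∈ (Finset.univ : Finset (Fin 4))) =>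
        div_ne_zero (by rw [Ne, map_eq_zero]; exact h j : algebraMap F K (a j) ≠ 0) h4K)
      exact h8 h7.symm
    · have hz : ∑ z : Neg (σ ^ 4), quadraticChar F (Gbil σ c (x : K) z z)
          = (Fintype.card F : ℤ) ^ 2 * ((Fintype.card F : ℤ) - 1) *
            quadraticChar F (-(a 0 * a 1 * a 2)) := by
        rw [hsum, ← chi3 hF h0 h1 h2', h3]
        simp only [zero_mul, add_zero]
      have hne : -(a 0 * a 1 * a 2) ≠ 0 := neg_ne_zero.2 (mul_ne_zero (mul_ne_zero h0 h1) h2')
      have hchi : quadraticChar F (-(a 0 * a 1 * a 2)) = -1 := by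
        rcases quadraticChar_dichotomy hne with h | h
        · exfalso
          apply hcon
          rw [quadraticChar_one_iff_isSquare hne] at h
          obtain ⟨s, hs⟩ := h
          rw [h3, map_zero, zero_mul, add_zero] at hU1 hUc
          refine fin_step hF σ c (a 0 / 4) (a 1 / 4) (a 2 / 4) (s / 8) (U 0) (U 1) (U 2)
            (div_ne_zero h0 h4F) (div_ne_zero h1 h4F) (div_ne_zero h2' h4F) ?_ (hU4 0) (hU4 1)
            (hU4 2) ?_ ?_ ?_
          · rw [div_pow, pow_two s, ← hs]
            have : (8 : F) ≠ 0 := by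
              have : (8 : F) = 2 * 2 * 2 := by norm_num
              rw [this]; exact mul_ne_zero (mul_ne_zero h2F h2F) h2F
            field_simp
            norm_num
          · simp only [map_div₀, map_ofNat]
            field_simp
            linear_combination hU1
          · simp only [map_div₀, map_ofNat]
            field_simp
            linear_combination hUc
          · intro m0 m1 m2 hm
            have := hUi ![m0, m1, m2, 0] (by
              rw [Fin.sum_univ_four]; simpa using hm)
            exact ⟨congrFun this 0, congrFun this 1⟩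
        · exact h
      rw [hz, hchi]
      have : 0 < (Fintype.card F : ℤ) ^ 2 * ((Fintype.card F : ℤ) - 1) := by
        apply mul_pos (by positivity) (by linarith)
      refine ⟨by linarith, fun _ => by linarith⟩
    · exfalso
      apply hcon
      rw [h3, h2'] at hU1 hUc
      simp only [map_zero, zero_mul, add_zero] at hU1 hUc
      have hσU1 : algebraMap F K (a 0) * (σ (U 0)) ^ 2 + algebraMap F K (a 1) * (σ (U 1)) ^ 2
          = 4 := by
        have := congrArg σ hU1
        simpa only [map_add, map_mul, map_pow, σ.commutes, map_ofNat] using this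
      have h0 : a 0 ≠ 0 := by
        intro h
        rw [h, map_zero, zero_mul, zero_add] at hU1 hUc hσU1
        apply hc1
        have : (4 * 4 : K) * (c ^ 2 - 1) = 0 := by
          have e1 : (4 * c) ^ 2 = 4 * 4 := by
            rw [← hUc]
            calc (algebraMap F K (a 1) * (U 1 * σ (U 1))) ^ 2
                = (algebraMap F K (a 1) * U 1 ^ 2) * (algebraMap F K (a 1) * σ (U 1) ^ 2) := by ring
              _ = _ := by rw [hU1, hσU1]
          linear_combination e1
        rcases mul_eq_zero.1 this with h | h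
        · exact absurd h (mul_ne_zero h4K h4K)
        · exact sub_eq_zero.1 h
      have h1 : a 1 ≠ 0 := by
        intro h
        rw [h, map_zero, zero_mul, add_zero] at hU1 hUc hσU1
        apply hc1
        have : (4 * 4 : K) * (c ^ 2 - 1) = 0 := by
          have e1 : (4 * c) ^ 2 = 4 * 4 := by
            rw [← hUc]
            calc (algebraMap F K (a 0) * (U 0 * σ (U 0))) ^ 2
                = (algebraMap F K (a 0) * U 0 ^ 2) * (algebraMap F K (a 0) * σ (U 0) ^ 2) := by ring
              _ = _ := by rw [hU1, hσU1]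
          linear_combination e1
        rcases mul_eq_zero.1 this with h | h
        · exact absurd h (mul_ne_zero h4K h4K)
        · exact sub_eq_zero.1 h
      refine fin_step hF σ c (a 0 / 4) (a 1 / 4) (-(a 0 / 4 * (a 1 / 4))) (a 0 / 4 * (a 1 / 4))
        (U 0) (U 1) 0
        (div_ne_zero h0 h4F) (div_ne_zero h1 h4F)
        (neg_ne_zero.2 (mul_ne_zero (div_ne_zero h0 h4F) (div_ne_zero h1 h4F)))
        (by ring) (hU4 0) (hU4 1) (by simp) ?_ ?_ ?_
      · simp only [map_div₀, map_ofNat]
        field_simp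
        linear_combination hU1
      · simp only [map_div₀, map_ofNat]
        field_simp
        linear_combination hUc
      · intro m0 m1 m2 hm
        have := hUi ![m0, m1, 0, 0] (by
          rw [Fin.sum_univ_four]; simpa using hm)
        exact ⟨congrFun this 0, congrFun this 1⟩
  -- the total sum vanishes
  have htotal : ∑ x : Neg (σ ^ 2), ∑ z : Neg (σ ^ 4), quadraticChar F (Gbil σ c (x : K) z z) = 0 := by
    rw [Finset.sum_comm]
    refine Finset.sum_eq_zero fun z _ => ?_
    by_cases hz : z = 0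
    · subst hz; simp
    · have hz0 : (z : K) ≠ 0 := by
        intro h; apply hz; ext; simpa using h
      have hz4 : σ (σ (σ (σ (z : K)))) = -(z : K) := by rw [← four_app]; exact z.2
      have hy0 : (z : K) * σ (σ z) ≠ 0 := mul_ne_zero hz0 (by simpa using hz0)
      have hy : σ (σ ((z : K) * σ (σ z))) = -((z : K) * σ (σ z)) := by
        rw [map_mul, map_mul, hz4]; ring
      rw [← x_sum σ hσ hK h2 hF hG (Gbil σ c 0 z z) _ hy0 hy]
      refine Finset.sum_congr rfl fun x _ => ?_
      congr 1
      rw [Gbil_apply, Gbil_apply]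
      have : Gform σ c (x : K) (z : K) (z : K) = Gform σ c 0 (z : K) (z : K)
          + (2 : F) • ((x : K) * ((z : K) * σ (σ z))) := by
        rw [Algebra.smul_def, map_ofNat]; unfold Gform; ring
      rw [this, map_add, map_smul, smul_eq_mul]
  obtain ⟨x0, hx0, hx0'⟩ := alpha σ hσ hK h2 hF hG c (σ c) (σ (σ c)) (σ (σ (σ c)))
    (c * σ c - σ (σ c) * σ (σ (σ c))) (σ c * σ (σ c) - σ (σ (σ c)) * c)
    (c * σ (σ c) - σ c * σ (σ (σ c)))
    (1 - (c ^ 2 + (σ c) ^ 2 + (σ (σ c)) ^ 2 + (σ (σ (σ c))) ^ 2)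
      + (c * σ (σ c) + σ c * σ (σ (σ c))) ^ 2) rfl rfl rfl hc4 hc0 hc1 rfl rfl rfl rfl
  have hx0mem : x0 ∈ Neg (σ ^ 2) := by rw [mem_Neg, sq_app, hx0]
  have hneg := (hmem ⟨x0, hx0mem⟩).2 (by rw [Mmat_det]; exact hx0')
  have : ∑ x : Neg (σ ^ 2), ∑ z : Neg (σ ^ 4), quadraticChar F (Gbil σ c (x : K) z z) < 0 := by
    apply Finset.sum_neg' (fun x _ => (hmem x).1)
    exact ⟨⟨x0, hx0mem⟩, Finset.mem_univ _, hneg⟩
  linarith

end MP5d0678
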