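import Pool.Agent.MP5d0678.Final

open Module

namespace MP5d0678

variable {F K : Type*} [Field F] [Field K] [Algebra F K]

/-- the linear map `z ↦ a z + b (σ z + δ σ⁵ z)` -/
noncomputable def cmap (σ : K ≃ₐ[F] K) (δ : K) : (K × K) →ₗ[F] (K →ₗ[F] K) where
  toFun p :=
    { toFun := fun z => p.1 * z + p.2 * (σ z + δ * σ (σ (σ (σ (σ z)))))
      map_add' := by intro x y; simp only [map_add]; ring
      map_smul' := by
        intro t x
        simp only [RingHom.id_apply, Algebra.smul_def, map_mul, σ.commutes]; ring }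
  map_add' := by intro x y; ext z; simp; ring
  map_smul' := by intro t x; ext z; simp [Algebra.smul_def]; ring

lemma cmap_apply (σ : K ≃ₐ[F] K) (δ : K) (p : K × K) (z : K) :
    cmap σ δ p z = p.1 * z + p.2 * (σ z + δ * σ (σ (σ (σ (σ z))))) := rfl

section
variable [Fintype F] [DecidableEq F] [Finite K]
  [FiniteDimensional F K] (σ : K ≃ₐ[F] K) (hσ : orderOf σ = 8)
  (hK : finrank F K = 8) (h2 : (2 : K) ≠ 0) (hF : ringChar F ≠ 2) (hG : IsGalois F K)

include hσ in
omit [Fintype F] [DecidableEq F] [Finite K] in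
lemma cmap_inj (δ : K) (p : K × K) (h : cmap σ δ p = 0) : p = 0 := by
  have := ind σ hσ ![p.1, p.2, 0, 0, 0, p.2 * δ, 0, 0] (by
    intro y
    have e := congrArg (fun φ : K →ₗ[F] K => φ y) h
    simp only [cmap_apply, LinearMap.zero_apply] at e
    simp [Fin.sum_univ_succ, pow_succ]
    linear_combination e)
  have h0 := this 0
  have h1 := this 1
  simp at h0 h1
  ext <;> simpa

include hσ hK h2 hF hG

/-- the kernel criterion -/
lemma ker_small (δ : K) (hδ : δ * σ (σ (σ (σ δ))) = -1) (p : K × K) (hp : p ≠ 0) :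
    finrank F (LinearMap.ker (cmap σ δ p)) ≤ 1 := by
  by_contra hcon
  push Not at hcon
  have h8 := pow8 σ hσ
  haveI : Nontrivial (LinearMap.ker (cmap σ δ p)) := nontrivial_of_finrank_pos (R := F) (by omega)
  obtain ⟨⟨x, hx⟩, hx0⟩ := exists_ne (0 : LinearMap.ker (cmap σ δ p))
  have hx0' : x ≠ 0 := by
    intro h; apply hx0; ext; simpa using h
  have hnot : ¬ ∀ y : LinearMap.ker (cmap σ δ p), ∃ c : F, c • (⟨x, hx⟩ : LinearMap.ker (cmap σ δ p)) = y := by
    intro h
    have := (finrank_le_one_iff (K := F) (V := LinearMap.ker (cmap σ δ p))).2 ⟨_, h⟩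
    omega
  push Not at hnot
  obtain ⟨⟨y, hy⟩, hyc⟩ := hnot
  have ht : σ (y / x) ≠ y / x := by
    intro h
    obtain ⟨a, ha⟩ := scalar_of_fixed σ hσ hK h2 hF hG hx0' h
    apply hyc a
    ext; simpa using ha.symm
  obtain ⟨t, htdef⟩ : ∃ t, t = y / x := ⟨_, rfl⟩
  rw [← htdef] at ht
  have hyt : y = t * x := by rw [htdef]; field_simp
  rw [LinearMap.mem_ker, cmap_apply] at hx hy
  have hp2 : p.2 ≠ 0 := by
    intro h
    rw [h, zero_mul, add_zero] at hx
    apply hp
    ext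
    · rcases mul_eq_zero.1 hx with h' | h'
      · exact h'
      · exact absurd h' hx0'
    · exact h
  have e1 : p.2 * ((σ t - t) * σ x + δ * (σ (σ (σ (σ (σ t)))) - t) * σ (σ (σ (σ (σ x))))) = 0 := by
    rw [hyt] at hy
    simp only [map_mul] at hy
    linear_combination hy - t * hx
  have e2 : (σ t - t) * σ x + δ * (σ (σ (σ (σ (σ t)))) - t) * σ (σ (σ (σ (σ x)))) = 0 := by
    rcases mul_eq_zero.1 e1 with h | h
    · exact absurd h hp2
    · exact h
  have e3 := congrArg (fun y => σ (σ (σ (σ y)))) e2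
  simp only [map_add, map_mul, map_sub, map_zero, h8] at e3
  have hsx : σ x ≠ 0 := by simpa using hx0'
  have hsx5 : σ (σ (σ (σ (σ x)))) ≠ 0 := by simpa using hx0'
  apply ht
  apply nosol σ h2 h8 t
  have e4 : σ x * σ (σ (σ (σ (σ x)))) * ((σ t - t) * (σ (σ (σ (σ (σ t)))) - σ (σ (σ (σ t))))
      - -((σ (σ (σ (σ (σ t)))) - t) * (σ t - σ (σ (σ (σ t)))))) = 0 := by
    linear_combination (σ (σ (σ (σ (σ t)))) - σ (σ (σ (σ t)))) * σ (σ (σ (σ (σ x)))) * e2
      - (δ * (σ (σ (σ (σ (σ t)))) - t) * σ (σ (σ (σ (σ x))))) * e3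
      + ((σ (σ (σ (σ (σ t)))) - t) * (σ t - σ (σ (σ (σ t)))) * σ x * σ (σ (σ (σ (σ x))))) * hδ
  rcases mul_eq_zero.1 e4 with h | h
  · exact absurd h (mul_ne_zero hsx hsx5)
  · exact sub_eq_zero.1 h

omit h2 hF hG in
omit [Fintype F] [DecidableEq F] [Finite K] hσ in
lemma rank_ker (φ : K →ₗ[F] K) :
    finrank F (LinearMap.range φ) + finrank F (LinearMap.ker φ) = 8 := by
  rw [LinearMap.finrank_range_add_finrank_ker, hK]

/-- the main equivalence for a general generator of the Galois group -/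
theorem main_sigma (δ : K) (hδ : δ ≠ 0) (C : Submodule F (K →ₗ[F] K))
    (hC : ∀ φ : K →ₗ[F] K, φ ∈ C ↔ ∃ a b : K, ∀ z, φ z = a * z + b * (σ z + δ * σ (σ (σ (σ (σ z)))))) :
    (∃ d : ℕ, IsLeast {r | ∃ φ ∈ C, φ ≠ 0 ∧ r = finrank F (LinearMap.range φ)} d ∧
      finrank F C = 8 * (8 - d + 1)) ↔ δ * σ (σ (σ (σ δ))) = -1 := by
  have h8 := pow8 σ hσ
  have hCr : C = LinearMap.range (cmap σ δ) := by
    ext φ
    rw [hC, LinearMap.mem_range]
    constructor
    · rintro ⟨a, b, h⟩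
      exact ⟨(a, b), by ext z; rw [cmap_apply, h]⟩
    · rintro ⟨p, rfl⟩
      exact ⟨p.1, p.2, fun z => by rw [cmap_apply]⟩
  have hdimC : finrank F C = 16 := by
    rw [hCr, LinearMap.finrank_range_of_inj]
    · rw [Module.finrank_prod, hK]
    · rw [← LinearMap.ker_eq_bot, LinearMap.ker_eq_bot']
      intro p hp
      exact cmap_inj σ hσ δ p hp
  -- the map with kernel containing a given x
  have hφ : ∀ x : K, x ≠ 0 → ∃ φ ∈ C, φ ≠ 0 ∧ φ x = 0 ∧ ∃ p : K × K, p.2 = 1 ∧ φ = cmap σ δ p := by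
    intro x hx
    refine ⟨cmap σ δ (-(σ x + δ * σ (σ (σ (σ (σ x))))) / x, 1), ?_, ?_, ?_, _, rfl, rfl⟩
    · rw [hCr]; exact ⟨_, rfl⟩
    · intro h
      have := cmap_inj σ hσ δ _ h
      have := congrArg Prod.snd this
      simp at this
    · rw [cmap_apply]
      simp only
      field_simp
      ring
  constructor
  · rintro ⟨d, ⟨⟨φ0, _, _, hd0⟩, hd2⟩, hd3⟩
    by_contra hne
    rw [hdimC] at hd3
    have hd : d = 7 := by omega
    obtain ⟨t, ht, hrel⟩ := exists_t σ hσ hK h2 hF hG (δ * σ (σ (σ (σ δ))))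
      (by simp only [map_mul, h8]; ring) (mul_ne_zero hδ (by simpa using hδ)) hne
    obtain ⟨x, hx0, hx⟩ := exists_x σ hσ hK h2 hF hG δ t hδ ht hrel
    obtain ⟨φ, hφC, hφ0, hφx, p, hp2, hφp⟩ := hφ x hx0
    have hφtx : φ (t * x) = 0 := by
      have e1 := hφx
      rw [hφp, cmap_apply, hp2] at e1
      rw [hφp, cmap_apply, hp2, hx]
      linear_combination t * e1
    have hker : ¬ finrank F (LinearMap.ker φ) ≤ 1 := by
      intro h
      rw [finrank_le_one_iff] at h
      obtain ⟨v, hv⟩ := h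
      obtain ⟨α, hα⟩ := hv ⟨x, hφx⟩
      obtain ⟨β, hβ⟩ := hv ⟨t * x, hφtx⟩
      have hα' : algebraMap F K α * (v : K) = x := by
        have := congrArg Subtype.val hα
        simpa [Algebra.smul_def] using this
      have hβ' : algebraMap F K β * (v : K) = t * x := by
        have := congrArg Subtype.val hβ
        simpa [Algebra.smul_def] using this
      have hv0 : (v : K) ≠ 0 := by
        intro h; rw [h, mul_zero] at hα'; exact hx0 hα'.symm
      have hα0 : algebraMap F K α ≠ 0 := by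
        intro h; rw [h, zero_mul] at hα'; exact hx0 hα'.symm
      have htt : t = algebraMap F K (β / α) := by
        rw [map_div₀, eq_div_iff hα0]
        have : (t * algebraMap F K α - algebraMap F K β) * (v : K) = 0 := by
          linear_combination t * hα' - hβ'
        rcases mul_eq_zero.1 this with h | h
        · exact sub_eq_zero.1 h
        · exact absurd h hv0
      apply ht
      rw [htt, σ.commutes]
    have hrk := rank_ker hK φ
    have := hd2 ⟨φ, hφC, hφ0, rfl⟩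
    omega
  · intro hδ1
    refine ⟨7, ⟨?_, ?_⟩, by rw [hdimC]⟩
    · obtain ⟨φ, hφC, hφ0, hφx, p, hp2, hφp⟩ := hφ 1 one_ne_zero
      refine ⟨φ, hφC, hφ0, ?_⟩
      have hp0 : p ≠ 0 := by
        rintro rfl; simp at hp2
      have h1 := ker_small σ hσ hK h2 hF hG δ hδ1 p hp0
      rw [← hφp] at h1
      have h3 : 0 < finrank F (LinearMap.ker φ) := by
        rw [finrank_pos_iff]
        exact ⟨⟨⟨1, hφx⟩, 0, fun h => one_ne_zero (congrArg Subtype.val h)⟩⟩
      have hrk := rank_ker hK φ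
      omega
    · rintro r ⟨φ, hφC, hφ0, rfl⟩
      rw [hCr] at hφC
      obtain ⟨p, rfl⟩ := hφC
      have hp0 : p ≠ 0 := by
        rintro rfl; exact hφ0 (map_zero _)
      have h1 := ker_small σ hσ hK h2 hF hG δ hδ1 p hp0
      have hrk := rank_ker hK (cmap σ δ p)
      omega

end

/-- the main equivalence -/
theorem main_thm [Fintype F] [Fintype K] (hodd : Odd (Fintype.card F)) (hK : finrank F K = 8)
    (δ : K) (hδ : δ ≠ 0) (s : ℕ) (hs : s = 1 ∨ s = 3 ∨ s = 5 ∨ s = 7)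
    (C : Submodule F (K →ₗ[F] K))
    (hC : ∀ φ : K →ₗ[F] K, φ ∈ C ↔ ∃ a b : K, ∀ z, φ z = a * z + b *
      (z ^ (Fintype.card F ^ s) + δ * z ^ (Fintype.card F ^ (4 + s)))) :
    (∃ d : ℕ, IsLeast {r | ∃ φ ∈ C, φ ≠ 0 ∧ r = finrank F (LinearMap.range φ)} d ∧
      finrank F C = 8 * (8 - d + 1)) ↔ δ ^ (1 + Fintype.card F ^ 4) = -1 := by
  classical
  haveI : FiniteDimensional F K := Module.finite_of_finrank_eq_succ hK
  have hF : ringChar F ≠ 2 := by
    intro h
    have := FiniteField.even_card_of_char_two h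
    rw [Nat.odd_iff] at hodd
    omega
  have h2F : (2 : F) ≠ 0 := Ring.two_ne_zero hF
  have h2 : (2 : K) ≠ 0 := by
    have : (2 : K) = algebraMap F K 2 := (map_ofNat (algebraMap F K) 2).symm
    rw [this, Ne, map_eq_zero]; exact h2F
  have hG : IsGalois F K := inferInstance
  set σ0 := FiniteField.frobeniusAlgEquivOfAlgebraic F K with hσ0
  have ho : orderOf σ0 = 8 := by
    rw [hσ0, FiniteField.orderOf_frobeniusAlgEquivOfAlgebraic, hK]
  have hpow : ∀ (n : ℕ) (z : K), (σ0 ^ n) z = z ^ (Fintype.card F ^ n) := by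
    intro n z
    have := congrFun (FiniteField.coe_frobeniusAlgEquivOfAlgebraic_iterate F K n) z
    rw [← this]
    rw [← AlgEquiv.coe_pow]
  have hcop : Nat.Coprime (orderOf σ0) s := by
    rw [ho]; rcases hs with rfl | rfl | rfl | rfl <;> decide
  have hσ : orderOf (σ0 ^ s) = 8 := by
    rw [hcop.orderOf_pow, ho]
  have h5 : ∀ z, (σ0 ^ s) ((σ0 ^ s) ((σ0 ^ s) ((σ0 ^ s) ((σ0 ^ s) z)))) =
      z ^ (Fintype.card F ^ (4 + s)) := by
    intro z
    rw [← hpow]
    have e1 : (σ0 ^ s) ((σ0 ^ s) ((σ0 ^ s) ((σ0 ^ s) ((σ0 ^ s) z)))) = (σ0 ^ (s * 5)) z := by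
      rw [pow_mul]; simp [pow_succ]
    have e2 : σ0 ^ (s * 5) = σ0 ^ (4 + s) := by
      rw [pow_inj_mod, ho]
      rcases hs with rfl | rfl | rfl | rfl <;> rfl
    rw [e1, e2]
  have h4 : ∀ z, (σ0 ^ s) ((σ0 ^ s) ((σ0 ^ s) ((σ0 ^ s) z))) = z ^ (Fintype.card F ^ 4) := by
    intro z
    rw [← hpow]
    have e1 : (σ0 ^ s) ((σ0 ^ s) ((σ0 ^ s) ((σ0 ^ s) z))) = (σ0 ^ (s * 4)) z := by
      rw [pow_mul]; simp [pow_succ]
    have e2 : σ0 ^ (s * 4) = σ0 ^ 4 := by
      rw [pow_inj_mod, ho]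
      rcases hs with rfl | rfl | rfl | rfl <;> rfl
    rw [e1, e2]
  have hmain := main_sigma (σ0 ^ s) hσ hK h2 hF hG δ hδ C (by
    intro φ
    rw [hC]
    simp only [h5]
    simp only [hpow])
  rw [hmain, h4, pow_add, pow_one]

end MP5d0678
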