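import Pool.Agent.MP5d0678.Diag

open Finset

namespace MP5d0678

variable {F : Type*} [Field F] [Fintype F] [DecidableEq F]
variable {W : Type*} [AddCommGroup W] [Module F W]

/-- the explicit equivalence between `F^4` as functions and as tuples -/
def tup4 (F : Type*) : (F × F × F × F) ≃ (Fin 4 → F) where
  toFun p := ![p.1, p.2.1, p.2.2.1, p.2.2.2]
  invFun f := (f 0, f 1, f 2, f 3)
  left_inv p := by rcases p with ⟨a, b, c, d⟩; rfl
  right_inv f := by ext i; fin_cases i <;> rfl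

lemma sum_basis [Fintype W] (B : LinearMap.BilinForm F W)
    (b : Module.Basis (Fin 4) F W) (hb : ∀ i j, i ≠ j → B (b i) (b j) = 0) (G : F → ℤ) :
    ∑ w : W, G (B w w) = ∑ y : F, ∑ z : F, ∑ u : F, ∑ v : F,
      G (B (b 0) (b 0) * y ^ 2 + B (b 1) (b 1) * z ^ 2
        + (B (b 2) (b 2) * u ^ 2 + B (b 3) (b 3) * v ^ 2)) := by
  have h1 : ∑ w : W, G (B w w) = ∑ p : F × F × F × F,
      G (B (b 0) (b 0) * p.1 ^ 2 + B (b 1) (b 1) * p.2.1 ^ 2
        + (B (b 2) (b 2) * p.2.2.1 ^ 2 + B (b 3) (b 3) * p.2.2.2 ^ 2)) := by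
    refine (Fintype.sum_equiv ((tup4 F).trans b.equivFun.symm.toEquiv) _ _ fun p => ?_).symm
    rcases p with ⟨y, z, u, v⟩
    have e : ((tup4 F).trans b.equivFun.symm.toEquiv) (y, z, u, v)
        = y • b 0 + z • b 1 + u • b 2 + v • b 3 := by
      show b.equivFun.symm (tup4 F (y, z, u, v)) = _
      rw [Module.Basis.equivFun_symm_apply, Fin.sum_univ_four]
      simp [tup4]
    rw [e]
    congr 1
    simp only [map_add, map_smul, LinearMap.add_apply, LinearMap.smul_apply, smul_eq_mul]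
    rw [hb 0 1 (by decide), hb 0 2 (by decide), hb 0 3 (by decide), hb 1 0 (by decide),
      hb 1 2 (by decide), hb 1 3 (by decide), hb 2 0 (by decide), hb 2 1 (by decide),
      hb 2 3 (by decide), hb 3 0 (by decide), hb 3 1 (by decide), hb 3 2 (by decide)]
    ring
  rw [h1]
  simp only [Fintype.sum_prod_type]

lemma ortho_cases (hF : ringChar F ≠ 2) (hW : Module.finrank F W = 4)
    (B : LinearMap.BilinForm F W) (hB : ∀ x y, B x y = B y x) :
    ∃ b : Module.Basis (Fin 4) F W, (∀ i j, i ≠ j → B (b i) (b j) = 0) ∧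
      ((∀ i, B (b i) (b i) ≠ 0) ∨
       (B (b 3) (b 3) = 0 ∧ B (b 0) (b 0) ≠ 0 ∧ B (b 1) (b 1) ≠ 0 ∧ B (b 2) (b 2) ≠ 0) ∨
       (B (b 3) (b 3) = 0 ∧ B (b 2) (b 2) = 0)) := by
  have h2 : (2 : F) ≠ 0 := Ring.two_ne_zero hF
  haveI : Invertible (2 : F) := invertibleOfNonzero h2
  haveI : FiniteDimensional F W := Module.finite_of_finrank_eq_succ hW
  have hs : LinearMap.IsSymm (B : W →ₗ[F] W →ₗ[F] F) := ⟨fun x y => by simpa using hB x y⟩
  obtain ⟨v, hv⟩ := LinearMap.BilinForm.exists_orthogonal_basis hs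
  let b0 : Module.Basis (Fin 4) F W := v.reindex (finCongr hW)
  have hb0 : ∀ i j, i ≠ j → B (b0 i) (b0 j) = 0 := by
    intro i j hij
    simp only [b0, Module.Basis.reindex_apply]
    exact hv (fun h => hij ((finCongr hW).symm.injective h))
  by_cases hall : ∀ i, B (b0 i) (b0 i) ≠ 0
  · exact ⟨b0, hb0, Or.inl hall⟩
  · push Not at hall
    obtain ⟨j, hj⟩ := hall
    let b1 : Module.Basis (Fin 4) F W := b0.reindex (Equiv.swap j 3)
    have hb1 : ∀ i j, i ≠ j → B (b1 i) (b1 j) = 0 := by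
      intro i k hik
      simp only [b1, Module.Basis.reindex_apply]
      exact hb0 _ _ (fun h => hik ((Equiv.swap j 3).symm.injective h))
    have h3 : B (b1 3) (b1 3) = 0 := by
      simp only [b1, Module.Basis.reindex_apply, Equiv.symm_swap, Equiv.swap_apply_right]
      exact hj
    by_cases hall2 : ∀ i, i ≠ 3 → B (b1 i) (b1 i) ≠ 0
    · exact ⟨b1, hb1, Or.inr (Or.inl ⟨h3, hall2 0 (by decide), hall2 1 (by decide),
        hall2 2 (by decide)⟩)⟩
    · push Not at hall2
      obtain ⟨i, hi3, hi⟩ := hall2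
      let b2 : Module.Basis (Fin 4) F W := b1.reindex (Equiv.swap i 2)
      refine ⟨b2, ?_, Or.inr (Or.inr ⟨?_, ?_⟩)⟩
      · intro k l hkl
        simp only [b2, Module.Basis.reindex_apply]
        exact hb1 _ _ (fun h => hkl ((Equiv.swap i 2).symm.injective h))
      · simp only [b2, Module.Basis.reindex_apply, Equiv.symm_swap]
        rw [Equiv.swap_apply_of_ne_of_ne (Ne.symm hi3) (by decide)]
        exact h3
      · simp only [b2, Module.Basis.reindex_apply, Equiv.symm_swap, Equiv.swap_apply_right]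
        exact hi

end MP5d0678
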