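import Pool.Agent.MP5d0678.Ortho

open Finset Module

namespace MP5d0678

variable {F K : Type*} [Field F] [Field K] [Algebra F K]

/-- elements negated by `τ` -/
def Neg (τ : K ≃ₐ[F] K) : Submodule F K where
  carrier := {z | τ z = -z}
  add_mem' := by intro a b ha hb; simp only [Set.mem_setOf_eq] at *; rw [map_add, ha, hb]; ring
  zero_mem' := by simp
  smul_mem' := by intro c x hx; simp only [Set.mem_setOf_eq] at *; rw [map_smul, hx, smul_neg]

/-- elements fixed by `τ` -/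
def Fix (τ : K ≃ₐ[F] K) : Submodule F K where
  carrier := {z | τ z = z}
  add_mem' := by intro a b ha hb; simp only [Set.mem_setOf_eq] at *; rw [map_add, ha, hb]
  zero_mem' := by simp
  smul_mem' := by intro c x hx; simp only [Set.mem_setOf_eq] at *; rw [map_smul, hx]

lemma mem_Neg {τ : K ≃ₐ[F] K} {z : K} : z ∈ Neg τ ↔ τ z = -z := Iff.rfl
lemma mem_Fix {τ : K ≃ₐ[F] K} {z : K} : z ∈ Fix τ ↔ τ z = z := Iff.rfl

/-- multiplication by `w` as a linear equivalence `Fix τ ≃ Neg τ` -/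
noncomputable def mulEquiv (τ : K ≃ₐ[F] K) (w : K) (hw : w ≠ 0) (hτ : τ w = -w) :
    Fix τ ≃ₗ[F] Neg τ where
  toFun x := ⟨w * x.1, by rw [mem_Neg, map_mul, hτ, mem_Fix.1 x.2]; ring⟩
  invFun x := ⟨w⁻¹ * x.1, by
    rw [mem_Fix, map_mul, map_inv₀, hτ, mem_Neg.1 x.2, inv_neg]; ring⟩
  map_add' x y := by ext; simp [mul_add]
  map_smul' c x := by ext; simp
  left_inv x := by ext; simp [hw]
  right_inv x := by ext; simp [hw]

lemma finrank_split [FiniteDimensional F K] (h2 : (2 : K) ≠ 0) (τ : K ≃ₐ[F] K) (w : K)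
    (hw : w ≠ 0) (hτ : τ w = -w) :
    2 * finrank F (Neg τ) = finrank F (Fix (τ ^ 2)) := by
  have h1 : finrank F (Fix τ) = finrank F (Neg τ) := (mulEquiv τ w hw hτ).finrank_eq
  have h3 := Submodule.finrank_sup_add_finrank_inf_eq (Fix τ) (Neg τ)
  have h4 : Fix τ ⊓ Neg τ = ⊥ := by
    rw [eq_bot_iff]
    rintro x ⟨hx1, hx2⟩
    have e1 : τ x = x := hx1
    have e2 : τ x = -x := hx2
    have e3 : 2 * x = 0 := by linear_combination e2 - e1
    rcases mul_eq_zero.1 e3 with h | h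
    · exact absurd h h2
    · simpa using h
  have h5 : Fix τ ⊔ Neg τ = Fix (τ ^ 2) := by
    apply le_antisymm
    · rw [sup_le_iff]
      constructor
      · intro x hx
        have e1 : τ x = x := hx
        rw [mem_Fix, pow_two, AlgEquiv.mul_apply, e1, e1]
      · intro x hx
        have e1 : τ x = -x := hx
        rw [mem_Fix, pow_two, AlgEquiv.mul_apply, e1, map_neg, e1, neg_neg]
    · intro x hx
      have e1 : τ (τ x) = x := by
        have := mem_Fix.1 hx
        rwa [pow_two, AlgEquiv.mul_apply] at this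
      rw [Submodule.mem_sup]
      refine ⟨2⁻¹ * (x + τ x), ?_, 2⁻¹ * (x - τ x), ?_, ?_⟩
      · rw [mem_Fix, map_mul, map_add, e1, map_inv₀, map_ofNat]; ring
      · rw [mem_Neg, map_mul, map_sub, e1, map_inv₀, map_ofNat]; ring
      · field_simp; ring
  rw [h4, h5] at h3
  simp at h3
  omega

section order8

variable [FiniteDimensional F K] (σ : K ≃ₐ[F] K) (hσ : orderOf σ = 8)

include hσ

lemma ind (β : Fin 8 → K) (hβ : ∀ y : K, ∑ i : Fin 8, β i * (σ ^ (i : ℕ)) y = 0) :
    ∀ i, β i = 0 := by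
  have h1 := linearIndependent_monoidHom K K
  let f : Fin 8 → (K →* K) := fun i => ((σ ^ (i : ℕ) : K ≃ₐ[F] K) : K →* K)
  have hf : Function.Injective f := by
    intro i j hij
    have e : σ ^ (i : ℕ) = σ ^ (j : ℕ) := by
      ext x
      exact DFunLike.congr_fun hij x
    have := pow_inj_mod.1 e
    rw [hσ] at this
    ext
    rw [Nat.mod_eq_of_lt i.2, Nat.mod_eq_of_lt j.2] at this
    exact this
  have h2 := h1.comp f hf
  rw [Fintype.linearIndependent_iff] at h2
  apply h2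
  ext y
  simp only [Finset.sum_apply, Pi.smul_apply, smul_eq_mul, Function.comp]
  exact hβ y

lemma pow8 (x : K) : σ (σ (σ (σ (σ (σ (σ (σ x))))))) = x := by
  have h : σ ^ 8 = 1 := by rw [← hσ]; exact pow_orderOf_eq_one σ
  have := congrArg (fun f : K ≃ₐ[F] K => f x) h
  simpa [pow_succ] using this

lemma fix8 : Fix (σ ^ 8) = ⊤ := by
  have h : σ ^ 8 = 1 := by rw [← hσ]; exact pow_orderOf_eq_one σ
  rw [h, eq_top_iff]
  intro x _
  rw [mem_Fix]; rfl

/-- existence of an element with `σ⁴ z = - z` -/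
lemma exists_neg4 : ∃ z : K, z ≠ 0 ∧ σ (σ (σ (σ z))) = -z := by
  by_contra hcon
  push Not at hcon
  have h : ∀ y : K, y - σ (σ (σ (σ y))) = 0 := by
    intro y
    by_contra hy
    apply hcon _ hy
    simp only [map_sub]
    rw [pow8 σ hσ y]; ring
  have := ind σ hσ ![1, 0, 0, 0, -1, 0, 0, 0] (by
    intro y
    simp [Fin.sum_univ_succ, pow_succ]
    have := h y
    linear_combination this) 0
  simp at this

lemma exists_neg2 : ∃ z : K, z ≠ 0 ∧ σ (σ z) = -z := by
  by_contra hcon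
  push Not at hcon
  have h : ∀ y : K, y - σ (σ y) + σ (σ (σ (σ y))) - σ (σ (σ (σ (σ (σ y))))) = 0 := by
    intro y
    by_contra hy
    apply hcon _ hy
    simp only [map_sub, map_add]
    rw [pow8 σ hσ y]; ring
  have := ind σ hσ ![1, 0, -1, 0, 1, 0, -1, 0] (by
    intro y
    simp [Fin.sum_univ_succ, pow_succ]
    have := h y
    linear_combination this) 0
  simp at this

lemma exists_neg1 : ∃ z : K, z ≠ 0 ∧ σ z = -z := by
  by_contra hcon
  push Not at hcon
  have h : ∀ y : K, y - σ y + σ (σ y) - σ (σ (σ y)) + σ (σ (σ (σ y))) - σ (σ (σ (σ (σ y))))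
      + σ (σ (σ (σ (σ (σ y))))) - σ (σ (σ (σ (σ (σ (σ y)))))) = 0 := by
    intro y
    by_contra hy
    apply hcon _ hy
    simp only [map_sub, map_add]
    rw [pow8 σ hσ y]; ring
  have := ind σ hσ ![1, -1, 1, -1, 1, -1, 1, -1] (by
    intro y
    simp [Fin.sum_univ_succ, pow_succ]
    have := h y
    linear_combination this) 0
  simp at this

lemma ind4 (a0 a1 a2 a3 : K)
    (h : ∀ z : K, σ (σ (σ (σ z))) = -z → a0 * z + a1 * σ z + a2 * σ (σ z) + a3 * σ (σ (σ z)) = 0) :
    a0 = 0 ∧ a1 = 0 ∧ a2 = 0 ∧ a3 = 0 := by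
  have := ind σ hσ ![a0, a1, a2, a3, -a0, -a1, -a2, -a3] (by
    intro y
    have e := h (y - σ (σ (σ (σ y)))) (by simp only [map_sub]; rw [pow8 σ hσ y]; ring)
    simp only [map_sub] at e
    simp [Fin.sum_univ_succ, pow_succ]
    linear_combination e)
  exact ⟨this 0, this 1, this 2, this 3⟩

variable (hK : finrank F K = 8) (h2 : (2 : K) ≠ 0)

include hK h2

lemma dimV : finrank F (Neg (σ ^ 4)) = 4 := by
  obtain ⟨w, hw, hw'⟩ := exists_neg4 σ hσ
  have e : (σ ^ 4) w = -w := by rw [← hw']; simp [pow_succ]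
  have := finrank_split h2 (σ ^ 4) w hw e
  rw [← pow_mul, show 4 * 2 = 8 by norm_num, fix8 σ hσ, finrank_top, hK] at this
  omega

lemma dimF4 : finrank F (Fix (σ ^ 4)) = 4 := by
  obtain ⟨w, hw, hw'⟩ := exists_neg4 σ hσ
  have e : (σ ^ 4) w = -w := by rw [← hw']; simp [pow_succ]
  rw [(mulEquiv (σ ^ 4) w hw e).finrank_eq]
  exact dimV σ hσ hK h2

lemma dimVm : finrank F (Neg (σ ^ 2)) = 2 := by
  obtain ⟨w, hw, hw'⟩ := exists_neg2 σ hσ
  have e : (σ ^ 2) w = -w := by rw [← hw']; simp [pow_succ]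
  have := finrank_split h2 (σ ^ 2) w hw e
  rw [← pow_mul, show 2 * 2 = 4 by norm_num, dimF4 σ hσ hK h2] at this
  omega

/-- the trace in terms of powers of `σ` -/
lemma trace_eq (hG : IsGalois F K) (x : K) :
    algebraMap F K (Algebra.trace F K x) = x + σ x + σ (σ x) + σ (σ (σ x)) + σ (σ (σ (σ x)))
      + σ (σ (σ (σ (σ x)))) + σ (σ (σ (σ (σ (σ x))))) + σ (σ (σ (σ (σ (σ (σ x)))))) := by
  classical
  rw [trace_eq_sum_automorphisms]
  have hinj : Function.Injective (fun i : Fin 8 => σ ^ (i : ℕ)) := by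
    intro i j hij
    have := pow_inj_mod.1 hij
    rw [hσ] at this
    ext
    rw [Nat.mod_eq_of_lt i.2, Nat.mod_eq_of_lt j.2] at this
    exact this
  have hcard : Fintype.card (Fin 8) = Fintype.card (K ≃ₐ[F] K) := by
    rw [← Nat.card_eq_fintype_card (α := K ≃ₐ[F] K), IsGalois.card_aut_eq_finrank, hK]; simp
  have hbij : Function.Bijective (fun i : Fin 8 => σ ^ (i : ℕ)) :=
    (Fintype.bijective_iff_injective_and_card _).2 ⟨hinj, hcard⟩
  rw [← (Equiv.ofBijective _ hbij).sum_comp]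
  simp [Fin.sum_univ_succ, pow_succ]
  ring

end order8

end MP5d0678
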